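import Pool.Agent.H75.LT.SR
import Pool.Agent.H75.LT.Ext
import Pool.Agent.H86.UM.Z1
import Pool.Agent.H86.UM.ZTs
import Pool.Agent.H86.UM.FC0
import Pool.Agent.H75.UE.L0

/-!
# Project US (MP_978914_al): chains of Suzuki-Ree groups. Definitions.

`GF D K`, `Esr D σ`, `SRs D t0 θ σ`, `Swap D t0`, `yb`, `yg` are in H86/UM (Z0.lean, Env.lean).
`IsSRad D t0 G`: `G` is isomorphic to some `Esr D σ` (adjoint version, no central quotient needed).
`SD D t0 G`: the data of such an isomorphism, over an infinite field.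
`Rig D t0`: the rigidity theorem. `SRT D t0`: what is used about the three types.
-/

set_option autoImplicit false
open Matrix
universe u
namespace Pool.Agent.H75.UL

open Pool.Agent.H86 Pool.Agent.H86.UM

variable {n : ℕ} {C : SLC n}

/-- `G` is isomorphic to a group `Esr D σ`. -/
def IsSRad (D : Dg C) (t0 : Fin n → Fin n) (G : Type u) [Group G] : Prop :=
  ∃ (K : Type u) (_ : Field K) (θ : K ≃+* K) (σ : GF D K →* GF D K), SRs D t0 θ σ ∧
    Nonempty (G ≃* Esr D σ)

/-- An isomorphism of `G` with a group `Esr D σ` over an infinite field. -/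
structure SD (D : Dg C) (t0 : Fin n → Fin n) (G : Type u) [Group G] where
  K : Type u
  [fK : Field K]
  inf : Infinite K
  θ : K ≃+* K
  σ : GF D K →* GF D K
  hσ : SRs D t0 θ σ
  e : G ≃* Esr D σ

attribute [instance] SD.fK SD.inf

/-- The matrix of an element of `Esr D σ`. -/
abbrev em {D : Dg C} {K : Type u} [Field K] {σ : GF D K →* GF D K} (x : Esr D σ) : GL C.Idx K :=
  ((x : GF D K) : GL C.Idx K)

theorem em_injective {D : Dg C} {K : Type u} [Field K] {σ : GF D K →* GF D K} :
    Function.Injective (em : Esr D σ → GL C.Idx K) := fun x y h =>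
  Subtype.ext (Subtype.ext h)

/-- Rigidity: an injective homomorphism between two groups `Esr` is the composition of a field
homomorphism compatible with `θ`, `θ'`, a diagonal automorphism and an inner automorphism. -/
def Rig (D : Dg C) (t0 : Fin n → Fin n) : Prop :=
  ∀ (K K' : Type u) [Field K] [Field K'] [Infinite K] (θ : K ≃+* K) (θ' : K' ≃+* K')
    (σ : GF D K →* GF D K) (σ' : GF D K' →* GF D K'), SRs D t0 θ σ → SRs D t0 θ' σ' →
    ∀ Ψ : Esr D σ →* Esr D σ', Function.Injective Ψ →
    ∃ (φ : K →+* K') (g : Esr D σ') (cc : Fin n → K'ˣ), (∀ t, φ (θ t) = θ' (φ t)) ∧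
      (∀ j, cc (D.ρ j) = cc j) ∧ (∀ j, D.ρ j ≠ j → (cc (t0 j) : K') = θ' (cc j)) ∧
      ∀ x : Esr D σ, em (Ψ x) = em g * (UM.tad C cc * C.mp φ (em x) * (UM.tad C cc)⁻¹) * (em g)⁻¹

/-- What is used about the three types. -/
structure SRT (D : Dg C) (t0 : Fin n → Fin n) : Prop where
  swap : Swap D t0
  /-- the adjoint representation is injective on the folded universal group -/
  inj : ∀ (K : Type u) [Field K], CharP K D.m → ∀ x ∈ EE D K (RingEquiv.refl K),
    pa C K x = 1 → x = 1
  center : ∀ (K : Type u) [Field K] [Infinite K] (θ : K ≃+* K) (σ : GF D K →* GF D K),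
    SRs D t0 θ σ → Subgroup.center (Esr D σ) = ⊥
  rigid : Rig.{u} D t0

/-- `a` induces an automorphism of `Esr D σ` by conjugation. -/
structure AutSR (D : Dg C) {K : Type u} [Field K] (σ : GF D K →* GF D K) (a : GL C.Idx K) :
    Prop where
  img : ∀ x : Esr D σ, ∃ y : Esr D σ, em y = a * em x * a⁻¹
  inv : ∀ x : Esr D σ, ∃ y : Esr D σ, em y = a⁻¹ * em x * a

end Pool.Agent.H75.UL
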