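import Pool.Agent.H75.US.S0
import Pool.Agent.H86.UM.FCa

/-!
# Project US, module S1: diagonal automorphisms of `Esr D σ`

Let `A = tad C cc`, `cc (ρ j) = cc j`. Then `A * xg β t * A⁻¹ = xg β (χ_β t)`, `χ_β = ∏ j, cc j ^ β_j`
(`tad_xg` or similar in H75/UE or H86/UM: search for `tadM`; entries of `X`), `χ_(r β) = χ_β` (reindex by
`ρ`, `r_val`), so `A * yb β t * A⁻¹ = yb β (χ_β t)` (`IsSig.iter` with `θ = 1`). So conjugation by `A` maps
`GF D K` to itself (`GF_gen`, `exists_tadG`), `FU` to itself and `FUm` to itself (`FU_eq`, `FUm_eq`), and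
commutes with `σ`: by `GF_gen` it is enough to check it on `yg (± simple j) t`; if `ρ j ≠ j` this is
`cc (t0 j) = θ (cc j)`; if `ρ j = j` then `t0 j` is not fixed (`Swap.fix_iff`), so
`cc (t0 (t0 j)) = θ (cc (t0 j))`, and `cc (t0 (t0 j)) = cc j` (`Swap.inv`, `cc ∘ ρ = cc`).
So `A` maps `Fx σ` to itself, and `Esr D σ` to itself; the same for `A⁻¹ = tad C cc⁻¹` (which satisfies the
same conditions). `tad_aut` follows.
-/

set_option autoImplicit false
open Matrix
universe u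
namespace Pool.Agent.H75.UL

open Pool.Agent.H86 Pool.Agent.H86.UM

variable {n : ℕ} {C : SLC n} {D : Dg C} {t0 : Fin n → Fin n}

section S1aux

/-- The character value of the root `β`. -/
private def S1_ch {K : Type u} [Field K] (cc : Fin n → Kˣ) (v : Fin n → ℤ) : Kˣ :=
  ∏ j, cc j ^ v j

private theorem S1_ch_r {K : Type u} [Field K] (cc : Fin n → Kˣ) (h1 : ∀ j, cc (D.ρ j) = cc j)
    (β : C.Root) : S1_ch cc (D.r β).1 = S1_ch cc β.1 := by
  unfold S1_ch
  rw [← Equiv.prod_comp D.ρ]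
  refine Finset.prod_congr rfl fun j _ => ?_
  rw [D.r_val, h1]

private theorem S1_ch_iter {K : Type u} [Field K] (cc : Fin n → Kˣ)
    (h1 : ∀ j, cc (D.ρ j) = cc j) (l : ℕ) (β : C.Root) :
    S1_ch cc (D.r^[l] β).1 = S1_ch cc β.1 := by
  induction l with
  | zero => rfl
  | succ l ih => rw [Function.iterate_succ_apply', S1_ch_r cc h1, ih]

private theorem S1_ch_simple {K : Type u} [Field K] (cc : Fin n → Kˣ) (i : Fin n) :
    S1_ch cc (C.simple i).1 = cc i := by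
  unfold S1_ch
  rw [SLC.simple_val, Finset.prod_eq_single i]
  · rw [Pi.single_eq_same, zpow_one]
  · intro j _ hj
    rw [Pi.single_eq_of_ne hj, zpow_zero]
  · intro h
    exact absurd (Finset.mem_univ i) h

private theorem S1_ch_neg_simple {K : Type u} [Field K] (cc : Fin n → Kˣ) (i : Fin n) :
    S1_ch cc (-(C.simple i)).1 = (cc i)⁻¹ := by
  rw [← S1_ch_simple (C := C) cc i]
  unfold S1_ch
  rw [SLC.Root.neg_val, ← Finset.prod_inv_distrib]
  refine Finset.prod_congr rfl fun j _ => ?_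
  rw [Pi.neg_apply, _root_.zpow_neg]

private theorem S1_yb {K : Type u} [Field K] (cc : Fin n → Kˣ) (h1 : ∀ j, cc (D.ρ j) = cc j)
    (β : C.Root) (t : K) :
    UM.tad C cc * yb D (C.adS K) (D.sgl (RingEquiv.refl K)) β t * (UM.tad C cc)⁻¹ =
      yb D (C.adS K) (D.sgl (RingEquiv.refl K)) β (((S1_ch cc β.1 : Kˣ) : K) * t) := by
  have hs : IsSig D (RingEquiv.refl K) (C.adS K) (D.sgl (RingEquiv.refl K)) := isSig_adS D _
  have key : ∀ L : List ℕ,
      (MulAut.conj (UM.tad C cc)) ((L.map fun l =>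
        (D.sgl (RingEquiv.refl K))^[l] ((C.adS K).x β t)).prod) =
      (L.map fun l => (D.sgl (RingEquiv.refl K))^[l]
        ((C.adS K).x β (((S1_ch cc β.1 : Kˣ) : K) * t))).prod := by
    intro L
    rw [map_list_prod, List.map_map]
    congr 1
    refine List.map_congr_left fun l _ => ?_
    rw [Function.comp_apply, hs.iter, hs.iter, MulAut.conj_apply]
    have e := UM.tad_xg C cc (D.r^[l] β)
      ((D.sgp l β : K) * (⇑(RingEquiv.refl K))^[l] t)
    change UM.tad C cc * C.xg K (D.r^[l] β) ((D.sgp l β : K) * (⇑(RingEquiv.refl K))^[l] t) *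
      (UM.tad C cc)⁻¹ = C.xg K (D.r^[l] β) _
    rw [e]
    have e2 : (∏ j, cc j ^ (D.r^[l] β).1 j : Kˣ) = S1_ch cc β.1 := S1_ch_iter cc h1 l β
    rw [e2]
    congr 1
    have e3 : ∀ u : K, (⇑(RingEquiv.refl K))^[l] u = u := fun u => by
      simp [Function.iterate_fixed]
    rw [e3, e3]
    ring
  have := key (List.range (mo D β))
  rw [MulAut.conj_apply] at this
  exact this

private theorem S1_mem (hN : D.NA) {K : Type u} [Field K] [Infinite K] (cc : Fin n → Kˣ)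
    (h1 : ∀ j, cc (D.ρ j) = cc j) (x : GF D K) :
    UM.tad C cc * (x : GL C.Idx K) * (UM.tad C cc)⁻¹ ∈ GF D K := by
  have h : (⊤ : Subgroup (GF D K)) ≤
      ((GF D K).comap (MulAut.conj (UM.tad C cc)).toMonoidHom).subgroupOf (GF D K) := by
    rw [← UM.GF_gen hN (k := K), Subgroup.closure_le]
    rintro g ⟨j, t, rfl | rfl⟩
    · change UM.tad C cc * ((yg hN (C.simple j) t : GF D K) : GL C.Idx K) *
        (UM.tad C cc)⁻¹ ∈ GF D K
      rw [yg_val, S1_yb cc h1]
      exact yb_mem D hN K _ _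
    · change UM.tad C cc * ((yg hN (-(C.simple j)) t : GF D K) : GL C.Idx K) *
        (UM.tad C cc)⁻¹ ∈ GF D K
      rw [yg_val, S1_yb cc h1]
      exact yb_mem D hN K _ _
  exact h (Subgroup.mem_top x)

end S1aux

/-- Conjugation by a diagonal element on the folded group. -/
theorem exists_tadG (hN : D.NA) {K : Type u} [Field K] [Infinite K] (cc : Fin n → Kˣ)
    (h1 : ∀ j, cc (D.ρ j) = cc j) : ∃ α : GF D K →* GF D K,
    (∀ x : GF D K, (α x : GL C.Idx K) = UM.tad C cc * (x : GL C.Idx K) * (UM.tad C cc)⁻¹) ∧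
    ∀ β (t : K), α (yg hN β t) = yg hN β (((∏ j, cc j ^ β.1 j : Kˣ) : K) * t) := by
  let α : GF D K →* GF D K :=
    ((MulAut.conj (UM.tad C cc)).toMonoidHom.comp (GF D K).subtype).codRestrict (GF D K)
      (fun x => S1_mem hN cc h1 x)
  have hα : ∀ x : GF D K,
      (α x : GL C.Idx K) = UM.tad C cc * (x : GL C.Idx K) * (UM.tad C cc)⁻¹ := fun x => rfl
  refine ⟨α, hα, fun β t => ?_⟩
  apply Subtype.ext
  rw [hα, yg_val, yg_val, S1_yb cc h1]
  rfl

private theorem S1_th_mul {K : Type u} [Field K] (θ : K ≃+* K) (β : C.Root) (a b : K) :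
    th D θ β (a * b) = th D θ β a * th D θ β b := by
  unfold th
  split_ifs <;> exact _root_.map_mul _ _ _

private theorem S1_th_inv {K : Type u} [Field K] (θ : K ≃+* K) (β : C.Root) (a : K) :
    th D θ β a⁻¹ = (th D θ β a)⁻¹ := by
  unfold th
  split_ifs <;> exact map_inv₀ _ _

private theorem S1_cyc {K : Type u} [Field K] (cc : Fin n → Kˣ) (h1 : ∀ j, cc (D.ρ j) = cc j)
    {i j : Fin n} (h : D.ρ.SameCycle i j) : cc j = cc i := by
  obtain ⟨z, rfl⟩ := h
  have hn : ∀ (m : ℕ) (l : Fin n), cc ((D.ρ ^ m) l) = cc l := by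
    intro m
    induction m with
    | zero => intro l; rfl
    | succ m ih => intro l; rw [pow_succ, Equiv.Perm.mul_apply, ih, h1]
  rcases Int.eq_nat_or_neg z with ⟨m, rfl | rfl⟩
  · rw [zpow_natCast]
    exact hn m i
  · rw [_root_.zpow_neg, zpow_natCast]
    have := hn m ((D.ρ ^ m)⁻¹ i)
    rw [← Equiv.Perm.mul_apply, mul_inv_cancel, Equiv.Perm.one_apply] at this
    exact this.symm

private theorem S1_th (hS : Swap D t0) {K : Type u} [Field K] (θ : K ≃+* K) (cc : Fin n → Kˣ)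
    (h1 : ∀ j, cc (D.ρ j) = cc j) (h2 : ∀ j, D.ρ j ≠ j → (cc (t0 j) : K) = θ (cc j))
    (j : Fin n) : th D θ (C.simple j) (cc j : K) = cc (t0 j) := by
  unfold th
  have hr : D.r (C.simple j) = C.simple j ↔ D.ρ j = j := by
    rw [D.r_simple]
    constructor
    · intro h
      have h' := congrArg (fun β : C.Root => β.1 j) h
      simp only [SLC.simple_val, Pi.single_eq_same] at h'
      by_contra hne
      rw [Pi.single_eq_of_ne (fun e => hne e.symm)] at h'
      exact zero_ne_one h'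
    · intro h
      rw [h]
  by_cases hj : D.ρ j = j
  · rw [if_pos (hr.mpr hj)]
    rw [RingEquiv.symm_apply_eq]
    have h3 : D.ρ (t0 j) ≠ t0 j := fun h => (hS.fix_iff j).mp h hj
    rw [← h2 _ h3, S1_cyc cc h1 (hS.inv j)]
  · rw [if_neg (fun h => hj (hr.mp h)), h2 j hj]

/-- conjugation by the diagonal element commutes with `σ` -/
private theorem S1_comm (hS : Swap D t0) {K : Type u} [Field K] [Infinite K] {θ : K ≃+* K}
    {σ : GF D K →* GF D K} (h : SRs D t0 θ σ) (cc : Fin n → Kˣ)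
    (h1 : ∀ j, cc (D.ρ j) = cc j) (h2 : ∀ j, D.ρ j ≠ j → (cc (t0 j) : K) = θ (cc j))
    (α : GF D K →* GF D K)
    (hα : ∀ β (t : K), α (yg hS.na β t) = yg hS.na β (((∏ j, cc j ^ β.1 j : Kˣ) : K) * t))
    (x : GF D K) : σ (α x) = α (σ x) := by
  have hp : ∀ (j : Fin n) (t : K), σ (yg hS.na (C.simple j) t) =
      yg hS.na (C.simple (t0 j)) (th D θ (C.simple j) t) := fun j t =>
    Subtype.ext (h.pos j t _ rfl)
  have hn : ∀ (j : Fin n) (t : K), σ (yg hS.na (-(C.simple j)) t) =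
      yg hS.na (-(C.simple (t0 j))) (th D θ (C.simple j) t) := fun j t =>
    Subtype.ext (h.neg j t _ rfl)
  have e : σ.comp α = α.comp σ := by
    refine MonoidHom.eq_of_eqOn_dense (UM.GF_gen hS.na (k := K)) ?_
    rintro g ⟨j, t, rfl | rfl⟩
    · change σ (α _) = α (σ _)
      have ea : (∏ i, cc i ^ (C.simple j).1 i : Kˣ) = cc j := S1_ch_simple cc j
      have eb : (∏ i, cc i ^ (C.simple (t0 j)).1 i : Kˣ) = cc (t0 j) := S1_ch_simple cc _
      rw [hα, hp, hp, hα, S1_th_mul, ea, eb, S1_th hS θ cc h1 h2]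
    · change σ (α _) = α (σ _)
      have ea : (∏ i, cc i ^ (-(C.simple j)).1 i : Kˣ) = (cc j)⁻¹ := S1_ch_neg_simple cc j
      have eb : (∏ i, cc i ^ (-(C.simple (t0 j))).1 i : Kˣ) = (cc (t0 j))⁻¹ :=
        S1_ch_neg_simple cc _
      rw [hα, hn, hn, hα, S1_th_mul, ea, eb, Units.val_inv_eq_inv_val, Units.val_inv_eq_inv_val,
        S1_th_inv, S1_th hS θ cc h1 h2]
  exact DFunLike.congr_fun e x

private theorem S1_Esr (hS : Swap D t0) {K : Type u} [Field K] [Infinite K] {θ : K ≃+* K}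
    {σ : GF D K →* GF D K} (h : SRs D t0 θ σ) (cc : Fin n → Kˣ)
    (h1 : ∀ j, cc (D.ρ j) = cc j) (h2 : ∀ j, D.ρ j ≠ j → (cc (t0 j) : K) = θ (cc j))
    (x : Esr D σ) : ∃ y : Esr D σ, em y = UM.tad C cc * em x * (UM.tad C cc)⁻¹ := by
  obtain ⟨α, hα1, hα2⟩ := exists_tadG hS.na cc h1
  have hcomm := S1_comm hS h cc h1 h2 α hα2
  have hfix : ∀ y ∈ Fx σ, α y ∈ Fx σ := by
    intro y hy
    rw [mem_Fx] at hy ⊢
    rw [hcomm, hy]
  have hU : FU D K ≤ (FU D K).comap α := by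
    conv_lhs => rw [UM.FU_eq hS.na]
    rw [Subgroup.closure_le]
    rintro g ⟨β, hβ, t, rfl⟩
    rw [SetLike.mem_coe, Subgroup.mem_comap, hα2]
    exact UM.yg_pos hS.na β hβ _
  have hUm : FUm D K ≤ (FUm D K).comap α := by
    conv_lhs => rw [UM.FUm_eq hS.na]
    rw [Subgroup.closure_le]
    rintro g ⟨β, hβ, t, rfl⟩
    rw [SetLike.mem_coe, Subgroup.mem_comap, hα2]
    exact UM.yg_npos hS.na β hβ _
  have hE : Esr D σ ≤ (Esr D σ).comap α := by
    refine sup_le ?_ ?_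
    · rintro y ⟨hy1, hy2⟩
      exact (le_sup_left : FU D K ⊓ Fx σ ≤ Esr D σ) ⟨hU hy1, hfix y hy2⟩
    · rintro y ⟨hy1, hy2⟩
      exact (le_sup_right : FUm D K ⊓ Fx σ ≤ Esr D σ) ⟨hUm hy1, hfix y hy2⟩
  exact ⟨⟨α x, hE x.2⟩, hα1 x⟩

theorem tad_aut (hS : Swap D t0) {K : Type u} [Field K] [Infinite K] {θ : K ≃+* K}
    {σ : GF D K →* GF D K} (h : SRs D t0 θ σ) (g : Esr D σ) (cc : Fin n → Kˣ)
    (h1 : ∀ j, cc (D.ρ j) = cc j) (h2 : ∀ j, D.ρ j ≠ j → (cc (t0 j) : K) = θ (cc j)) :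
    AutSR D σ (em g * UM.tad C cc) := by
  constructor
  · intro x
    obtain ⟨y, hy⟩ := S1_Esr hS h cc h1 h2 x
    refine ⟨g * y * g⁻¹, ?_⟩
    have e : em (g * y * g⁻¹) = em g * em y * (em g)⁻¹ := rfl
    rw [e, hy]
    group
  · intro x
    have h1' : ∀ j, cc⁻¹ (D.ρ j) = cc⁻¹ j := fun j => by rw [Pi.inv_apply, Pi.inv_apply, h1]
    have h2' : ∀ j, D.ρ j ≠ j → (cc⁻¹ (t0 j) : K) = θ (cc⁻¹ j : Kˣ) := fun j hj => by
      rw [Pi.inv_apply, Pi.inv_apply, Units.val_inv_eq_inv_val, Units.val_inv_eq_inv_val,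
        map_inv₀, h2 j hj]
    obtain ⟨y, hy⟩ := S1_Esr hS h cc⁻¹ h1' h2' (g⁻¹ * x * g)
    refine ⟨y, ?_⟩
    have e : em (g⁻¹ * x * g) = (em g)⁻¹ * em x * em g := rfl
    have ht : UM.tad C cc⁻¹ = (UM.tad C cc)⁻¹ := Units.ext rfl
    rw [hy, e, ht]
    group

/-- The automorphism given by `AutSR`. -/
theorem AutSR.exists_equiv {K : Type u} [Field K] {σ : GF D K →* GF D K} {a : GL C.Idx K}
    (h : AutSR D σ a) : ∃ f : Esr D σ ≃* Esr D σ, ∀ x, em (f x) = a * em x * a⁻¹ := by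
  choose f hf using h.img
  choose f' hf' using h.inv
  have hl : ∀ x, f' (f x) = x := fun x => by
    apply em_injective
    rw [hf', hf]
    group
  have hr : ∀ x, f (f' x) = x := fun x => by
    apply em_injective
    rw [hf, hf']
    group
  have hm : ∀ x y, f (x * y) = f x * f y := fun x y => by
    apply em_injective
    have e : em (f x * f y) = em (f x) * em (f y) := rfl
    have e' : em (x * y) = em x * em y := rfl
    rw [e, hf, hf, hf, e']
    group
  exact ⟨MulEquiv.mk' ⟨f, f', hl, hr⟩ hm, hf⟩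

end Pool.Agent.H75.UL
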