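import Pool.Agent.H75.US.S9
import Pool.Agent.H86.UM.ZH

/-!
# Project US, module S10: the main theorem for all Lie types
-/

set_option autoImplicit false
open Matrix
universe u
namespace Pool.Agent.H75.UL

open Pool.Agent.H86 Pool.Agent.H86.UM Pool.Agent.H75.LT

theorem srt_A3 : SRT.{u} dA3 tA3 where
  swap := swap_A3
  inj := fun K _ hK x hx h => inj_A3 K (by rw [dA3_m] at hK; exact hK) x hx h
  center := fun K _ _ θ σ h => cen_A3 K θ σ h
  rigid := rig_A3

theorem srt_D4 : SRT.{u} dD4 tD4 where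
  swap := swap_D4
  inj := fun K _ hK x hx h => inj_D4 K (by rw [dD4_m] at hK; exact hK) x hx h
  center := fun K _ _ θ σ h => cen_D4 K θ σ h
  rigid := rig_D4

theorem srt_E6 : SRT.{u} dE6 tE6 where
  swap := swap_E6
  inj := fun K _ hK x hx h => inj_E6 K (by rw [dE6_m] at hK; exact hK) x hx h
  center := fun K _ _ θ σ h => cen_E6 K θ σ h
  rigid := rig_E6

end Pool.Agent.H75.UL
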