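import Pool.Agent.H75.US.S0

/-!
# Project US, module S2: functoriality of the folded groups and of `Esr`

`mp_yb`: `yb` is a product of `s^l (xg β t) = xg (r^l β) (± t)` (`IsSig.iter` with `θ = 1`), and `C.mp φ (xg β t) =
xg β (φ t)` (search for `mp_xg`). `mp_GF`: `GF D K` is generated by `fixU` and `fixUm`; `C.mp φ` maps `U 1` to
`U 1`, `Um` to `Um` and commutes with `sgl 1` (`sgl_mp`). `mG_sig`: both sides are homomorphisms; by
`GF_gen` it is enough to compare them on `yg (± simple j) t` (`SRs.pos`, `SRs.neg`, `mp_yb`; `φ` commutes with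
`th` as `φ (θ.symm t) = θ'.symm (φ t)`).
-/

set_option autoImplicit false
open Matrix
universe u
namespace Pool.Agent.H75.UL

open Pool.Agent.H86 Pool.Agent.H86.UM

variable {n : ℕ} {C : SLC n} {D : Dg C} {t0 : Fin n → Fin n}

private theorem S2_iter (D : Dg C) {K K' : Type*} [Field K] [Field K'] (φ : K →+* K') (l : ℕ)
    (g : GL C.Idx K) : C.mp φ ((D.sgl (RingEquiv.refl K))^[l] g) =
      (D.sgl (RingEquiv.refl K'))^[l] (C.mp φ g) := by
  induction l with
  | zero => rfl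
  | succ l ih =>
    rw [Function.iterate_succ_apply', Function.iterate_succ_apply',
      sgl_mp D (RingEquiv.refl K) (RingEquiv.refl K') φ (fun t => rfl), ih]

theorem mp_yb (D : Dg C) {K K' : Type*} [Field K] [Field K'] (φ : K →+* K') (β : C.Root) (t : K) :
    C.mp φ (yb D (C.adS K) (D.sgl (RingEquiv.refl K)) β t) =
      yb D (C.adS K') (D.sgl (RingEquiv.refl K')) β (φ t) := by
  unfold yb
  rw [map_list_prod, List.map_map]
  congr 1
  apply List.map_congr_left
  intro l _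
  change C.mp φ ((D.sgl (RingEquiv.refl K))^[l] (C.xg K β t)) =
    (D.sgl (RingEquiv.refl K'))^[l] (C.xg K' β (φ t))
  rw [S2_iter, SLC.mp_xg]

private theorem S2_fixU (D : Dg C) {K K' : Type*} [Field K] [Field K'] (φ : K →+* K')
    (x : GL C.Idx K) (hx : x ∈ fixU (C.adS K) (D.sgl (RingEquiv.refl K))) :
    C.mp φ x ∈ fixU (C.adS K') (D.sgl (RingEquiv.refl K')) := by
  obtain ⟨h1, h2⟩ := hx
  refine ⟨C.mp_U φ 1 x h1, ?_⟩
  change D.sgl (RingEquiv.refl K') (C.mp φ x) = C.mp φ x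
  rw [← sgl_mp D (RingEquiv.refl K) (RingEquiv.refl K') φ (fun t => rfl)]
  exact congrArg (C.mp φ) h2

private theorem S2_Um (D : Dg C) {K K' : Type*} [Field K] [Field K'] (φ : K →+* K')
    (x : GL C.Idx K) (hx : x ∈ (C.adS K).Um) : C.mp φ x ∈ (C.adS K').Um := by
  have h1 : (C.adS K).Um ≤ ((C.adS K').Um).comap (C.mp φ) := by
    unfold StSys.Um
    rw [Subgroup.closure_le]
    rintro x ⟨β, t, hβ, rfl⟩
    change C.mp φ (C.xg K β t) ∈ (C.adS K').Um
    rw [SLC.mp_xg]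
    exact Subgroup.subset_closure ⟨β, φ t, hβ, rfl⟩
  exact h1 hx

private theorem S2_fixUm (D : Dg C) {K K' : Type*} [Field K] [Field K'] (φ : K →+* K')
    (x : GL C.Idx K) (hx : x ∈ fixUm (C.adS K) (D.sgl (RingEquiv.refl K))) :
    C.mp φ x ∈ fixUm (C.adS K') (D.sgl (RingEquiv.refl K')) := by
  obtain ⟨h1, h2⟩ := hx
  refine ⟨S2_Um D φ x h1, ?_⟩
  change D.sgl (RingEquiv.refl K') (C.mp φ x) = C.mp φ x
  rw [← sgl_mp D (RingEquiv.refl K) (RingEquiv.refl K') φ (fun t => rfl)]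
  exact congrArg (C.mp φ) h2

theorem mp_GF (D : Dg C) {K K' : Type*} [Field K] [Field K'] (φ : K →+* K') (x : GL C.Idx K)
    (hx : x ∈ GF D K) : C.mp φ x ∈ GF D K' := by
  have h1 : GF D K ≤ (GF D K').comap (C.mp φ) := by
    refine sup_le ?_ ?_
    · intro y hy
      exact (le_sup_left : fixU _ _ ≤ GF D K') (S2_fixU D φ y hy)
    · intro y hy
      exact (le_sup_right : fixUm _ _ ≤ GF D K') (S2_fixUm D φ y hy)
  exact h1 hx

/-- The homomorphism of the folded groups induced by a field homomorphism. -/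
noncomputable def mG (D : Dg C) {K K' : Type*} [Field K] [Field K'] (φ : K →+* K') :
    GF D K →* GF D K' where
  toFun x := ⟨C.mp φ (x : GL C.Idx K), mp_GF D φ _ x.2⟩
  map_one' := Subtype.ext (by simp)
  map_mul' x y := Subtype.ext (by simp)

theorem mG_val {K K' : Type*} [Field K] [Field K'] (φ : K →+* K') (x : GF D K) :
    (mG D φ x : GL C.Idx K') = C.mp φ (x : GL C.Idx K) := rfl

theorem mG_injective {K K' : Type*} [Field K] [Field K'] (φ : K →+* K') :
    Function.Injective (mG D φ) := by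
  intro x y h
  apply Subtype.ext
  apply C.mp_injective φ φ.injective
  have h1 := congrArg (fun z : GF D K' => (z : GL C.Idx K')) h
  exact h1

theorem mG_comp {K K' K'' : Type*} [Field K] [Field K'] [Field K''] (φ : K →+* K')
    (φ' : K' →+* K'') (φ'' : K →+* K'') (h : ∀ t, φ' (φ t) = φ'' t) (x : GF D K) :
    mG D φ' (mG D φ x) = mG D φ'' x := by
  apply Subtype.ext
  rw [mG_val, mG_val, mG_val]
  apply Units.ext
  ext a b
  rw [SLC.mp_val, SLC.mp_val, SLC.mp_val, Matrix.map_apply, Matrix.map_apply, Matrix.map_apply, h]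

theorem mG_yg (hN : D.NA) {K K' : Type*} [Field K] [Field K'] (φ : K →+* K') (β : C.Root)
    (t : K) : mG D φ (yg hN β t) = yg hN β (φ t) := by
  apply Subtype.ext
  rw [mG_val, yg_val, yg_val, mp_yb]

theorem mG_FU {K K' : Type*} [Field K] [Field K'] (φ : K →+* K') (x : GF D K)
    (hx : x ∈ FU D K) : mG D φ x ∈ FU D K' := by
  have h1 : (x : GL C.Idx K) ∈ fixU (C.adS K) (D.sgl (RingEquiv.refl K)) := hx
  have h2 : ((mG D φ x : GF D K') : GL C.Idx K') ∈
      fixU (C.adS K') (D.sgl (RingEquiv.refl K')) := by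
    rw [mG_val]
    exact S2_fixU D φ _ h1
  exact h2

theorem mG_FUm {K K' : Type*} [Field K] [Field K'] (φ : K →+* K') (x : GF D K)
    (hx : x ∈ FUm D K) : mG D φ x ∈ FUm D K' := by
  have h1 : (x : GL C.Idx K) ∈ fixUm (C.adS K) (D.sgl (RingEquiv.refl K)) := hx
  have h2 : ((mG D φ x : GF D K') : GL C.Idx K') ∈
      fixUm (C.adS K') (D.sgl (RingEquiv.refl K')) := by
    rw [mG_val]
    exact S2_fixUm D φ _ h1
  exact h2

private theorem S2_th (D : Dg C) {K K' : Type*} [Field K] [Field K'] (φ : K →+* K')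
    {θ : K ≃+* K} {θ' : K' ≃+* K'} (hφ : ∀ t, φ (θ t) = θ' (φ t)) (β : C.Root) (t : K) :
    φ (th D θ β t) = th D θ' β (φ t) := by
  unfold th
  split_ifs
  · apply θ'.injective
    rw [← hφ, RingEquiv.apply_symm_apply, RingEquiv.apply_symm_apply]
  · exact hφ t

theorem mG_sig (hS : Swap D t0) {K K' : Type*} [Field K] [Field K'] [Infinite K] (φ : K →+* K')
    {θ : K ≃+* K} {θ' : K' ≃+* K'} (hφ : ∀ t, φ (θ t) = θ' (φ t)) {σ : GF D K →* GF D K}
    {σ' : GF D K' →* GF D K'} (h : SRs D t0 θ σ) (h' : SRs D t0 θ' σ') (x : GF D K) :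
    σ' (mG D φ x) = mG D φ (σ x) := by
  have h0 : (σ'.comp (mG D φ)) = (mG D φ).comp σ := by
    apply MonoidHom.eq_of_eqOn_dense (GF_gen (D := D) hS.na (k := K))
    rintro g ⟨j, t, rfl | rfl⟩
    · change σ' (mG D φ (yg hS.na (C.simple j) t)) = mG D φ (σ (yg hS.na (C.simple j) t))
      rw [mG_yg]
      apply Subtype.ext
      rw [h'.pos j (φ t) _ (yg_val hS.na _ _), mG_val, h.pos j t _ (yg_val hS.na _ _), mp_yb,
        S2_th D φ hφ]
    · change σ' (mG D φ (yg hS.na (-(C.simple j)) t)) =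
        mG D φ (σ (yg hS.na (-(C.simple j)) t))
      rw [mG_yg]
      apply Subtype.ext
      rw [h'.neg j (φ t) _ (yg_val hS.na _ _), mG_val, h.neg j t _ (yg_val hS.na _ _), mp_yb,
        S2_th D φ hφ]
  exact DFunLike.congr_fun h0 x

theorem mG_Esr {K K' : Type*} [Field K] [Field K'] (φ : K →+* K') {σ : GF D K →* GF D K}
    {σ' : GF D K' →* GF D K'} (h : ∀ x, σ' (mG D φ x) = mG D φ (σ x)) (x : GF D K)
    (hx : x ∈ Esr D σ) : mG D φ x ∈ Esr D σ' := by
  have hF : ∀ y : GF D K, y ∈ Fx σ → mG D φ y ∈ Fx σ' := by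
    intro y hy
    rw [mem_Fx] at hy ⊢
    rw [h, hy]
  have h1 : Esr D σ ≤ (Esr D σ').comap (mG D φ) := by
    refine sup_le ?_ ?_
    · rintro y ⟨hy1, hy2⟩
      exact (le_sup_left : FU D K' ⊓ Fx σ' ≤ Esr D σ') ⟨mG_FU φ y hy1, hF y hy2⟩
    · rintro y ⟨hy1, hy2⟩
      exact (le_sup_right : FUm D K' ⊓ Fx σ' ≤ Esr D σ') ⟨mG_FUm φ y hy1, hF y hy2⟩
  exact h1 hx

end Pool.Agent.H75.UL
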