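import Mathlib

/-!
# Project US, module S3a: gluing endomorphisms along an ascending union (Mathlib only)

Let `G i j : B i →* B j`, `i ≤ j`, be the iterated maps (`Nat.leRecOn` as in H75/UE/L0.lean, or avoid them: by
induction on `d` the maps satisfy `f (i + d) (g^d x) = f i x`, `s (i + d) (g^d x) = g^d (s i x)`). Choose for each
`a` a pair `(i, x)` with `f i x = a` and put `S a = f i (s i x)`. It is independent of the choice: if
`f i x = f j y` with `i ≤ j` then `f j (G i j x) = f j y`, so `G i j x = y`, and `f j (s j y) =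
f j (G i j (s i x)) = f i (s i x)`. It is multiplicative, since two elements are in the image of a common
`f j`.
-/

set_option autoImplicit false
universe u
namespace Pool.Agent.H75.UL

/-- The iterated maps. -/
private def S3a_G (B : ℕ → Type*) [∀ i, Group (B i)] (g : ∀ i, B i →* B (i + 1)) (i : ℕ) :
    ∀ d : ℕ, B i →* B (i + d)
  | 0 => MonoidHom.id _
  | d + 1 => (g (i + d)).comp (S3a_G B g i d)

private theorem S3a_f {A : Type*} [Group A] (B : ℕ → Type*) [∀ i, Group (B i)]
    (f : ∀ i, B i →* A) (g : ∀ i, B i →* B (i + 1)) (hg : ∀ i x, f (i + 1) (g i x) = f i x)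
    (i : ℕ) (d : ℕ) (x : B i) : f (i + d) (S3a_G B g i d x) = f i x := by
  induction d with
  | zero => rfl
  | succ d ih => exact (hg (i + d) (S3a_G B g i d x)).trans ih

private theorem S3a_s (B : ℕ → Type*) [∀ i, Group (B i)] (g : ∀ i, B i →* B (i + 1))
    (s : ∀ i, B i →* B i) (hsg : ∀ i x, s (i + 1) (g i x) = g i (s i x))
    (i : ℕ) (d : ℕ) (x : B i) : s (i + d) (S3a_G B g i d x) = S3a_G B g i d (s i x) := by
  induction d with
  | zero => rfl
  | succ d ih =>
    refine (hsg (i + d) (S3a_G B g i d x)).trans ?_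
    exact congrArg (g (i + d)) ih

private theorem S3a_T (B : ℕ → Type*) [∀ i, Group (B i)] (g : ∀ i, B i →* B (i + 1))
    (T : ∀ i, Subgroup (B i)) (hT : ∀ i, ∀ x ∈ T i, g i x ∈ T (i + 1))
    (i : ℕ) (d : ℕ) (x : B i) (hx : x ∈ T i) : S3a_G B g i d x ∈ T (i + d) := by
  induction d with
  | zero => exact hx
  | succ d ih => exact hT (i + d) _ ih

theorem exists_glue {A : Type*} [Group A] (B : ℕ → Type*) [∀ i, Group (B i)]
    (f : ∀ i, B i →* A) (hf : ∀ i, Function.Injective (f i)) (g : ∀ i, B i →* B (i + 1))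
    (hg : ∀ i x, f (i + 1) (g i x) = f i x) (hs : ∀ a, ∃ i x, f i x = a)
    (s : ∀ i, B i →* B i) (hsg : ∀ i x, s (i + 1) (g i x) = g i (s i x)) :
    ∃ S : A →* A, ∀ i x, S (f i x) = f i (s i x) := by
  have key1 : ∀ i d (x : B i) (y : B (i + d)), f i x = f (i + d) y →
      f i (s i x) = f (i + d) (s (i + d) y) := by
    intro i d x y hxy
    rw [← S3a_f B f g hg i d x] at hxy
    rw [← hf (i + d) hxy, S3a_s B g s hsg, S3a_f B f g hg]
  have key : ∀ i j (x : B i) (y : B j), f i x = f j y → f i (s i x) = f j (s j y) := by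
    intro i j x y hxy
    rcases le_total i j with h | h
    · obtain ⟨d, rfl⟩ := Nat.exists_eq_add_of_le h
      exact key1 i d x y hxy
    · obtain ⟨d, rfl⟩ := Nat.exists_eq_add_of_le h
      exact (key1 j d y x hxy.symm).symm
  have common : ∀ a b : A, ∃ (k : ℕ) (x y : B k), f k x = a ∧ f k y = b := by
    intro a b
    obtain ⟨i, x, rfl⟩ := hs a
    obtain ⟨j, y, rfl⟩ := hs b
    rcases le_total i j with h | h
    · obtain ⟨d, rfl⟩ := Nat.exists_eq_add_of_le h
      exact ⟨i + d, S3a_G B g i d x, y, S3a_f B f g hg i d x, rfl⟩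
    · obtain ⟨d, rfl⟩ := Nat.exists_eq_add_of_le h
      exact ⟨j + d, x, S3a_G B g j d y, rfl, S3a_f B f g hg j d y⟩
  choose idx val hval using hs
  have hS : ∀ i x, f (idx (f i x)) (s (idx (f i x)) (val (f i x))) = f i (s i x) :=
    fun i x => key _ _ _ _ (hval (f i x))
  refine ⟨MonoidHom.mk' (fun a => f (idx a) (s (idx a) (val a))) ?_, hS⟩
  intro a b
  obtain ⟨k, x, y, rfl, rfl⟩ := common a b
  change f (idx (f k x * f k y)) (s (idx (f k x * f k y)) (val (f k x * f k y))) =
    f (idx (f k x)) (s (idx (f k x)) (val (f k x))) *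
      f (idx (f k y)) (s (idx (f k y)) (val (f k y)))
  rw [← map_mul, hS, hS, hS, map_mul, map_mul]

/-- The union of an ascending chain of images contains a closure if it contains the generators. -/
theorem union_closure {A : Type*} [Group A] (B : ℕ → Type*) [∀ i, Group (B i)]
    (f : ∀ i, B i →* A) (g : ∀ i, B i →* B (i + 1)) (hg : ∀ i x, f (i + 1) (g i x) = f i x)
    (T : ∀ i, Subgroup (B i)) (hT : ∀ i, ∀ x ∈ T i, g i x ∈ T (i + 1)) (Y : Set A)
    (hY : ∀ y ∈ Y, ∃ i, ∃ x ∈ T i, f i x = y) (a : A) (ha : a ∈ Subgroup.closure Y) :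
    ∃ i, ∃ x ∈ T i, f i x = a := by
  induction ha using Subgroup.closure_induction with
  | mem y hy => exact hY y hy
  | one => exact ⟨0, 1, one_mem _, map_one _⟩
  | mul a b _ _ ha hb =>
    obtain ⟨i, x, hx, rfl⟩ := ha
    obtain ⟨j, y, hy, rfl⟩ := hb
    rcases le_total i j with h | h
    · obtain ⟨d, rfl⟩ := Nat.exists_eq_add_of_le h
      refine ⟨i + d, S3a_G B g i d x * y, mul_mem (S3a_T B g T hT i d x hx) hy, ?_⟩
      rw [map_mul, S3a_f B f g hg]
    · obtain ⟨d, rfl⟩ := Nat.exists_eq_add_of_le h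
      refine ⟨j + d, x * S3a_G B g j d y, mul_mem hx (S3a_T B g T hT j d y hy), ?_⟩
      rw [map_mul, S3a_f B f g hg]
  | inv a _ ha =>
    obtain ⟨i, x, hx, rfl⟩ := ha
    exact ⟨i, x⁻¹, inv_mem hx, map_inv _ _⟩

/-- A group which is the ascending union of subgroups `H i`, each isomorphic to `B i`, compatibly with
injective maps `f i : B i →* A` whose images cover `A`, is isomorphic to `A`. -/
theorem exists_union_equiv {G A : Type*} [Group G] [Group A] (H : ℕ → Subgroup G)
    (hH : ∀ i, H i ≤ H (i + 1)) (hG : ∀ g : G, ∃ i, g ∈ H i) (B : ℕ → Type*)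
    [∀ i, Group (B i)] (e : ∀ i, H i ≃* B i) (g : ∀ i, B i →* B (i + 1))
    (hc : ∀ i (x : H i), e (i + 1) (Subgroup.inclusion (hH i) x) = g i (e i x))
    (f : ∀ i, B i →* A) (hf : ∀ i, Function.Injective (f i))
    (hg : ∀ i x, f (i + 1) (g i x) = f i x) (hs : ∀ a, ∃ i x, f i x = a) :
    Nonempty (G ≃* A) := by
  have hmono : Monotone H := monotone_nat_of_le_succ hH
  have key1 : ∀ (i d : ℕ) (x : G) (h : x ∈ H i) (h' : x ∈ H (i + d)),
      f (i + d) (e (i + d) ⟨x, h'⟩) = f i (e i ⟨x, h⟩) := by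
    intro i d x h
    induction d with
    | zero => intro h'; rfl
    | succ d ih =>
      intro h'
      have h'' : x ∈ H (i + d) := hmono (Nat.le_add_right i d) h
      have h1 := hc (i + d) ⟨x, h''⟩
      have h2 : Subgroup.inclusion (hH (i + d)) ⟨x, h''⟩ = ⟨x, h'⟩ := rfl
      rw [h2] at h1
      have h3 : f (i + d + 1) (e (i + d + 1) ⟨x, h'⟩) = f (i + d) (e (i + d) ⟨x, h''⟩) := by
        rw [h1, hg]
      exact h3.trans (ih h'')
  have key : ∀ (i j : ℕ) (x : G) (h : x ∈ H i) (h' : x ∈ H j),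
      f j (e j ⟨x, h'⟩) = f i (e i ⟨x, h⟩) := by
    intro i j x h h'
    rcases le_total i j with hij | hij
    · obtain ⟨d, rfl⟩ := Nat.exists_eq_add_of_le hij
      exact key1 i d x h h'
    · obtain ⟨d, rfl⟩ := Nat.exists_eq_add_of_le hij
      exact (key1 j d x h' h).symm
  choose idx hidx using hG
  let φ : G → A := fun x => f (idx x) (e (idx x) ⟨x, hidx x⟩)
  have hφ : ∀ i (x : G) (h : x ∈ H i), φ x = f i (e i ⟨x, h⟩) := fun i x h =>
    key i (idx x) x h (hidx x)
  have hmul : ∀ x y, φ (x * y) = φ x * φ y := by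
    intro x y
    have hx : x ∈ H (max (idx x) (idx y)) := hmono (le_max_left _ _) (hidx x)
    have hy : y ∈ H (max (idx x) (idx y)) := hmono (le_max_right _ _) (hidx y)
    rw [hφ _ (x * y) (mul_mem hx hy), hφ _ x hx, hφ _ y hy, ← map_mul, ← map_mul]
    rfl
  have hinj : Function.Injective φ := by
    intro x y hxy
    have hx : x ∈ H (max (idx x) (idx y)) := hmono (le_max_left _ _) (hidx x)
    have hy : y ∈ H (max (idx x) (idx y)) := hmono (le_max_right _ _) (hidx y)
    rw [hφ _ x hx, hφ _ y hy] at hxy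
    have h1 := (e _).injective (hf _ hxy)
    exact congrArg Subtype.val h1
  have hsurj : Function.Surjective φ := by
    intro a
    obtain ⟨i, b, rfl⟩ := hs a
    refine ⟨((e i).symm b : H i), ?_⟩
    rw [hφ i _ ((e i).symm b).2]
    congr 1
    exact (e i).apply_symm_apply b
  exact ⟨MulEquiv.ofBijective (MonoidHom.mk' φ hmul) ⟨hinj, hsurj⟩⟩

end Pool.Agent.H75.UL
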