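import Pool.Agent.H75.US.S2
import Pool.Agent.H75.US.S3a

/-!
# Project US, module S4: the limit of the pairs `(θ, σ)`

`KK` is the union of the `K i` (`Infinite KK`: `p 0` is injective). `FU_lim`: `FU_eq` and `union_closure` with
`B i = GF D (K i)`, `f i = mG D (p i)`, `g i = mG D (φ i)` (`mG_comp`), `T i = FU D (K i)`: a generator
`yg β t`, `β` positive, `t = p i s`, is `mG D (p i) (yg β s)`. The same for `FUm` and for `GF` itself
(`GF_gen`, `T i = ⊤`). `limit_sigma`: `exists_glue`. `pos`, `neg`: `x = mG D (p i) y` with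
`y = yg (simple j) s`, `p i s = t` (`mG_injective` is not needed: `x = yg (simple j) t` by
`Subtype.ext`, and `yg (simple j) (p i s) = mG (p i) (yg (simple j) s)`), `SRs.pos` for `σ i`, `mp_yb`.
`chr`: `charP_of_injective_ringHom`. `hθ`: surjectivity of the `p i`.
`Esr_lim`: `Esr` is the closure of the union of `FU ⊓ Fx` and `FUm ⊓ Fx`; a generator `x ∈ FU D KK` with
`σσ x = x` is `mG (p i) y`, `y ∈ FU D (K i)` (`FU_lim`), and `mG (p i) (σ i y) = mG (p i) y`, so `σ i y = y`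
(`mG_injective`). `union_closure` with `T i = Esr D (σ i)` (`mG_Esr`, `mG_sig`).
-/

set_option autoImplicit false
open Matrix
universe u
namespace Pool.Agent.H75.UL

open Pool.Agent.H86 Pool.Agent.H86.UM

variable {n : ℕ} {C : SLC n} {D : Dg C} {t0 : Fin n → Fin n}

/-- The data of a limit. -/
structure LimD (D : Dg C) (t0 : Fin n → Fin n) (K : ℕ → Type u) [∀ i, Field (K i)]
    (θ : ∀ i, K i ≃+* K i) (φ : ∀ i, K i →+* K (i + 1)) (σ : ∀ i, GF D (K i) →* GF D (K i))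
    (KK : Type u) [Field KK] (θθ : KK ≃+* KK) (p : ∀ i, K i →+* KK) : Prop where
  sw : Swap D t0
  inf : ∀ i, Infinite (K i)
  hσ : ∀ i, SRs D t0 (θ i) (σ i)
  hφ : ∀ i t, φ i (θ i t) = θ (i + 1) (φ i t)
  hp : ∀ i t, p (i + 1) (φ i t) = p i t
  hps : ∀ x, ∃ i y, p i y = x
  hθθ : ∀ i t, θθ (p i t) = p i (θ i t)

section
variable {K : ℕ → Type u} [∀ i, Field (K i)] {θ : ∀ i, K i ≃+* K i}
  {φ : ∀ i, K i →+* K (i + 1)} {σ : ∀ i, GF D (K i) →* GF D (K i)} {KK : Type u} [Field KK]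
  {θθ : KK ≃+* KK} {p : ∀ i, K i →+* KK} (h : LimD D t0 K θ φ σ KK θθ p)

include h

private theorem S4_inf : Infinite KK := by
  have := h.inf 0
  exact Infinite.of_injective (p 0) (p 0).injective

theorem FU_lim (x : GF D KK) (hx : x ∈ FU D KK) : ∃ i, ∃ y ∈ FU D (K i), mG D (p i) y = x := by
  have hI := S4_inf h
  have hIi := h.inf
  have hN := h.sw.na
  rw [FU_eq hN] at hx
  refine union_closure (fun i => GF D (K i)) (fun i => mG D (p i)) (fun i => mG D (φ i))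
    (fun i y => mG_comp (φ i) (p (i + 1)) (p i) (h.hp i) y) (fun i => FU D (K i))
    (fun i y hy => mG_FU (φ i) y hy) _ ?_ x hx
  rintro y ⟨β, hβ, t, rfl⟩
  obtain ⟨i, s, rfl⟩ := h.hps t
  exact ⟨i, yg hN β s, yg_pos hN β hβ s, mG_yg hN (p i) β s⟩

theorem FUm_lim (x : GF D KK) (hx : x ∈ FUm D KK) :
    ∃ i, ∃ y ∈ FUm D (K i), mG D (p i) y = x := by
  have hI := S4_inf h
  have hIi := h.inf
  have hN := h.sw.na
  rw [FUm_eq hN] at hx
  refine union_closure (fun i => GF D (K i)) (fun i => mG D (p i)) (fun i => mG D (φ i))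
    (fun i y => mG_comp (φ i) (p (i + 1)) (p i) (h.hp i) y) (fun i => FUm D (K i))
    (fun i y hy => mG_FUm (φ i) y hy) _ ?_ x hx
  rintro y ⟨β, hβ, t, rfl⟩
  obtain ⟨i, s, rfl⟩ := h.hps t
  exact ⟨i, yg hN β s, yg_npos hN β hβ s, mG_yg hN (p i) β s⟩

theorem GF_lim (x : GF D KK) : ∃ i, ∃ y : GF D (K i), mG D (p i) y = x := by
  have hI := S4_inf h
  have hN := h.sw.na
  have hx : x ∈ Subgroup.closure {g : GF D KK | ∃ (j : Fin n) (t : KK),
      g = yg hN (C.simple j) t ∨ g = yg hN (-(C.simple j)) t} := by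
    rw [GF_gen hN]
    exact Subgroup.mem_top x
  obtain ⟨i, y, -, hy⟩ := union_closure (fun i => GF D (K i)) (fun i => mG D (p i))
    (fun i => mG D (φ i)) (fun i y => mG_comp (φ i) (p (i + 1)) (p i) (h.hp i) y)
    (fun i => (⊤ : Subgroup (GF D (K i)))) (fun i y _ => Subgroup.mem_top _) _ (by
      rintro y ⟨j, t, hy⟩
      obtain ⟨i, s, rfl⟩ := h.hps t
      rcases hy with rfl | rfl
      · exact ⟨i, yg hN (C.simple j) s, Subgroup.mem_top _, mG_yg hN (p i) _ s⟩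
      · exact ⟨i, yg hN (-(C.simple j)) s, Subgroup.mem_top _, mG_yg hN (p i) _ s⟩) x hx
  exact ⟨i, y, hy⟩

private theorem S4_th (i : ℕ) (β : C.Root) (t : K i) :
    p i (th D (θ i) β t) = th D θθ β (p i t) := by
  unfold th
  split_ifs
  · rw [RingEquiv.eq_symm_apply, h.hθθ, RingEquiv.apply_symm_apply]
  · rw [h.hθθ]

theorem limit_sigma : ∃ σσ : GF D KK →* GF D KK, SRs D t0 θθ σσ ∧
    ∀ i x, σσ (mG D (p i) x) = mG D (p i) (σ i x) := by
  have hIi := h.inf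
  have hN := h.sw.na
  obtain ⟨S, hS⟩ := exists_glue (fun i => GF D (K i)) (fun i => mG D (p i))
    (fun i => mG_injective (p i)) (fun i => mG D (φ i))
    (fun i y => mG_comp (φ i) (p (i + 1)) (p i) (h.hp i) y)
    (fun a => by
      obtain ⟨i, y, hy⟩ := GF_lim h a
      exact ⟨i, y, hy⟩) σ
    (fun i x => mG_sig h.sw (φ i) (h.hφ i) (h.hσ i) (h.hσ (i + 1)) x)
  refine ⟨S, ?_, hS⟩
  refine ⟨?_, ?_, ?_, ?_⟩
  · have := (h.hσ 0).chr
    exact charP_of_injective_ringHom (p 0).injective D.m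
  · intro t
    obtain ⟨i, s, rfl⟩ := h.hps t
    rw [h.hθθ, h.hθθ, (h.hσ i).hθ, map_pow]
  · intro j t x hx
    obtain ⟨i, s, rfl⟩ := h.hps t
    have hx' : x = mG D (p i) (yg hN (C.simple j) s) := by
      rw [mG_yg]
      exact Subtype.ext hx
    rw [hx', hS, mG_val, (h.hσ i).pos j s _ (yg_val hN _ _), mp_yb, S4_th h]
  · intro j t x hx
    obtain ⟨i, s, rfl⟩ := h.hps t
    have hx' : x = mG D (p i) (yg hN (-(C.simple j)) s) := by
      rw [mG_yg]
      exact Subtype.ext hx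
    rw [hx', hS, mG_val, (h.hσ i).neg j s _ (yg_val hN _ _), mp_yb, S4_th h]

theorem Esr_lim (σσ : GF D KK →* GF D KK)
    (hs : ∀ i x, σσ (mG D (p i) x) = mG D (p i) (σ i x)) (x : GF D KK) (hx : x ∈ Esr D σσ) :
    ∃ i, ∃ y ∈ Esr D (σ i), mG D (p i) y = x := by
  have hIi := h.inf
  have key : ∀ (i : ℕ) (y : GF D (K i)), mG D (p i) y ∈ Fx σσ → y ∈ Fx (σ i) := by
    intro i y hy
    rw [mem_Fx, hs] at hy
    exact mG_injective (p i) hy
  unfold Esr at hx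
  rw [Subgroup.sup_eq_closure] at hx
  refine union_closure (fun i => GF D (K i)) (fun i => mG D (p i)) (fun i => mG D (φ i))
    (fun i y => mG_comp (φ i) (p (i + 1)) (p i) (h.hp i) y) (fun i => Esr D (σ i))
    (fun i y hy => mG_Esr (φ i)
      (fun z => mG_sig h.sw (φ i) (h.hφ i) (h.hσ i) (h.hσ (i + 1)) z) y hy) _ ?_ x hx
  rintro y (hy | hy)
  · obtain ⟨i, z, hz, rfl⟩ := FU_lim h y hy.1
    exact ⟨i, z, (le_sup_left : FU D (K i) ⊓ Fx (σ i) ≤ Esr D (σ i)) ⟨hz, key i z hy.2⟩, rfl⟩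
  · obtain ⟨i, z, hz, rfl⟩ := FUm_lim h y hy.1
    exact ⟨i, z, (le_sup_right : FUm D (K i) ⊓ Fx (σ i) ≤ Esr D (σ i)) ⟨hz, key i z hy.2⟩, rfl⟩

end

end Pool.Agent.H75.UL
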