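import Pool.Agent.H75.US.S4

/-!
# Project US, module S5: the limit of the groups `Esr D σ`

`exists_limit_field` (H75/UE/L0) gives `KK`, `p`, `θθ`; `LimD`; `limit_sigma` gives `σσ`. Apply `exists_union_equiv`
with `A = Esr D σσ`, `B i = Esr D (Y i).σ`, `e i = (Y i).e`, `g i` = the restriction of `mG D (φ i)`
(`mG_sig`, `mG_Esr`), `f i` = the restriction of `mG D (p i)` (`mG_injective`), `Esr_lim`.
-/

set_option autoImplicit false
open Matrix
universe u
namespace Pool.Agent.H75.UL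

open Pool.Agent.H86 Pool.Agent.H86.UM

variable {n : ℕ} {C : SLC n} {D : Dg C} {t0 : Fin n → Fin n}

theorem limit_SR (hS : Swap D t0) {G : Type u} [Group G] (H : ℕ → Subgroup G)
    (hH : ∀ i, H i ≤ H (i + 1)) (hG : ∀ g : G, ∃ i, g ∈ H i) (Y : ∀ i, SD D t0 (H i))
    (φ : ∀ i, (Y i).K →+* (Y (i + 1)).K)
    (hφ : ∀ i t, φ i ((Y i).θ t) = (Y (i + 1)).θ (φ i t))
    (hc : ∀ i (g : H i), em ((Y (i + 1)).e (Subgroup.inclusion (hH i) g)) =
      C.mp (φ i) (em ((Y i).e g))) : IsSRad D t0 G := by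
  obtain ⟨KK, hKK, p, θθ, hp, hps, hθθ⟩ :=
    exists_limit_field (fun i => (Y i).K) (fun i => (Y i).θ) φ hφ
  have hL : LimD D t0 (fun i => (Y i).K) (fun i => (Y i).θ) φ (fun i => (Y i).σ) KK θθ p :=
    { sw := hS
      inf := fun i => (Y i).inf
      hσ := fun i => (Y i).hσ
      hφ := hφ
      hp := hp
      hps := hps
      hθθ := hθθ }
  obtain ⟨σσ, hσσ, hs⟩ := limit_sigma hL
  let g : ∀ i, Esr D (Y i).σ →* Esr D (Y (i + 1)).σ := fun i =>
    ((mG D (φ i)).comp (Esr D (Y i).σ).subtype).codRestrict _ (fun x =>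
      mG_Esr (φ i) (fun y => mG_sig hS (φ i) (hφ i) (Y i).hσ (Y (i + 1)).hσ y) _ x.2)
  let f : ∀ i, Esr D (Y i).σ →* Esr D σσ := fun i =>
    ((mG D (p i)).comp (Esr D (Y i).σ).subtype).codRestrict _ (fun x =>
      mG_Esr (p i) (hs i) _ x.2)
  refine ⟨KK, hKK, θθ, σσ, hσσ,
    exists_union_equiv H hH hG (fun i => Esr D (Y i).σ) (fun i => (Y i).e) g ?_ f ?_ ?_ ?_⟩
  · intro i x
    exact em_injective (hc i x)
  · intro i x y hxy
    have h1 : mG D (p i) (x : GF D (Y i).K) = mG D (p i) (y : GF D (Y i).K) :=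
      congrArg (fun z : Esr D σσ => (z : GF D KK)) hxy
    exact Subtype.ext (mG_injective (p i) h1)
  · intro i x
    exact Subtype.ext (mG_comp (φ i) (p (i + 1)) (p i) (hp i) (x : GF D (Y i).K))
  · intro a
    obtain ⟨i, y, hy, hya⟩ := Esr_lim hL σσ hs (a : GF D KK) a.2
    exact ⟨i, ⟨y, hy⟩, Subtype.ext hya⟩

end Pool.Agent.H75.UL
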