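import Pool.Agent.H75.US.S1
import Pool.Agent.H75.US.S5

/-!
# Project US, module S6: the theorem for one type

`exists_SD`: `G` infinite; if `K` were finite then `GL C.Idx K` would be finite, so `K` is infinite.
`stepSR`: apply `hT.rigid` to `Ψ = X₂.e ∘ ψ ∘ X₁.e⁻¹`: `em (Ψ x) = a * C.mp φ (em x) * a⁻¹`,
`a = em g * tad C cc`; `tad_aut`, `AutSR.exists_equiv`: an automorphism `f` of `Esr D X₂.σ` with
`em (f y) = a * em y * a⁻¹`; `Y` = `X₂` with `e` replaced by `X₂.e.trans f.symm`.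
`main_SR`: as `main_D` in H75/UE/M1.lean: a strictly increasing `ψ k`, starting after an infinite member, with
`IsSRad D t0 (H (ψ k))`; all these groups are infinite; `exists_SD` gives `X k`; recursion with `stepSR`
(`Nat.rec`, as there: the state at `k` is an element of `SD D t0 (H (ψ k))`) gives `Y k`, `φ k`; `limit_SR`.
-/

set_option autoImplicit false
open Matrix
universe u
namespace Pool.Agent.H75.UL

open Pool.Agent.H86 Pool.Agent.H86.UM

variable {n : ℕ} {C : SLC n} {D : Dg C} {t0 : Fin n → Fin n}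

theorem exists_SD {G : Type u} [Group G] [Infinite G] (h : IsSRad D t0 G) :
    Nonempty (SD D t0 G) := by
  obtain ⟨K, fK, θ, σ, hσ, ⟨e⟩⟩ := h
  have hinf : Infinite K := by
    by_contra hK
    rw [not_infinite_iff_finite] at hK
    have h1 : Finite (GL C.Idx K) := inferInstance
    have h2 : Finite (Esr D σ) := Finite.of_injective _ (em_injective (D := D) (σ := σ))
    have h3 : Finite G := Finite.of_injective e e.injective
    exact not_finite G
  exact ⟨{ K := K, fK := fK, inf := hinf, θ := θ, σ := σ, hσ := hσ, e := e }⟩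

theorem stepSR (hT : SRT.{u} D t0) {G₁ G₂ : Type u} [Group G₁] [Group G₂] (X₁ : SD D t0 G₁)
    (X₂ : SD D t0 G₂) (ψ : G₁ →* G₂) (hψ : Function.Injective ψ) :
    ∃ (Y : SD D t0 G₂) (φ : X₁.K →+* Y.K), (∀ t, φ (X₁.θ t) = Y.θ (φ t)) ∧
      ∀ g : G₁, em (Y.e (ψ g)) = C.mp φ (em (X₁.e g)) := by
  obtain ⟨φ, g, cc, hφ, h1, h2, h3⟩ := hT.rigid X₁.K X₂.K X₁.θ X₂.θ X₁.σ X₂.σ X₁.hσ X₂.hσ
    (X₂.e.toMonoidHom.comp (ψ.comp X₁.e.symm.toMonoidHom)) (by
      intro x y hxy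
      exact X₁.e.symm.injective (hψ (X₂.e.injective hxy)))
  obtain ⟨f, hf⟩ := (tad_aut hT.swap X₂.hσ g cc h1 h2).exists_equiv
  refine ⟨{ K := X₂.K, inf := X₂.inf, θ := X₂.θ, σ := X₂.σ, hσ := X₂.hσ,
            e := X₂.e.trans f.symm }, φ, hφ, ?_⟩
  intro x
  have h4 := hf (f.symm (X₂.e (ψ x)))
  rw [MulEquiv.apply_symm_apply] at h4
  have h5 : em (X₂.e (ψ x)) = em g * (UM.tad C cc * C.mp φ (em (X₁.e x)) *
      (UM.tad C cc)⁻¹) * (em g)⁻¹ := by
    have h6 := h3 (X₁.e x)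
    change em (X₂.e (ψ (X₁.e.symm (X₁.e x)))) = _ at h6
    rw [MulEquiv.symm_apply_apply] at h6
    exact h6
  rw [h5] at h4
  change em (f.symm (X₂.e (ψ x))) = C.mp φ (em (X₁.e x))
  obtain ⟨y, hy⟩ : ∃ y, y = em (f.symm (X₂.e (ψ x))) := ⟨_, rfl⟩
  obtain ⟨z, hz⟩ : ∃ z, z = C.mp φ (em (X₁.e x)) := ⟨_, rfl⟩
  rw [← hy, ← hz] at h4 ⊢
  have h7 : y = (em g * UM.tad C cc)⁻¹ * (em g * UM.tad C cc * y * (em g * UM.tad C cc)⁻¹) *
      (em g * UM.tad C cc) := by group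
  rw [h7, ← h4]
  group

theorem main_SR (hT : SRT.{u} D t0) (G : Type u) [Group G] (H : ℕ → Subgroup G)
    (hH : Monotone H) (hG : ∀ g : G, ∃ i, g ∈ H i)
    (hA : ∀ m : ℕ, ∃ i, m ≤ i ∧ IsSRad D t0 (H i)) (hinf : ∃ i, Infinite (H i)) :
    IsSRad D t0 G := by
  obtain ⟨i₀, hi₀⟩ := hinf
  choose φ hφ hφA using hA
  let ψ : ℕ → ℕ := fun k => Nat.rec (φ i₀) (fun _ m => φ (m + 1)) k
  have hψA : ∀ k, IsSRad D t0 (H (ψ k)) := by
    intro k
    cases k with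
    | zero => exact hφA i₀
    | succ k => exact hφA (ψ k + 1)
  have hψlt : ∀ k, ψ k < ψ (k + 1) := fun k => Nat.lt_of_succ_le (hφ (ψ k + 1))
  have hψmono : StrictMono ψ := strictMono_nat_of_lt_succ hψlt
  have hψi : i₀ ≤ ψ 0 := hφ i₀
  have hInf : ∀ k, Infinite (H (ψ k)) := fun k =>
    Infinite.of_injective _ (Subgroup.inclusion_injective
      (hH (hψi.trans (hψmono.monotone (Nat.zero_le k)))))
  have hX : ∀ k, Nonempty (SD D t0 (H (ψ k))) := by
    intro k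
    have := hInf k
    exact exists_SD (hψA k)
  let X : ∀ k, SD D t0 (H (ψ k)) := fun k => Classical.choice (hX k)
  have hle : ∀ k, H (ψ k) ≤ H (ψ (k + 1)) := fun k => hH (hψlt k).le
  have step : ∀ (k : ℕ) (T : SD D t0 (H (ψ k))), ∃ (T' : SD D t0 (H (ψ (k + 1))))
      (φ' : T.K →+* T'.K), (∀ t, φ' (T.θ t) = T'.θ (φ' t)) ∧
      ∀ g : H (ψ k), em (T'.e (Subgroup.inclusion (hle k) g)) = C.mp φ' (em (T.e g)) :=
    fun k T => stepSR hT T (X (k + 1)) (Subgroup.inclusion (hle k))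
      (Subgroup.inclusion_injective _)
  choose F Φ hΦ hF using step
  let T : ∀ k : ℕ, SD D t0 (H (ψ k)) := fun k =>
    Nat.rec (motive := fun k => SD D t0 (H (ψ k))) (X 0) F k
  refine limit_SR hT.swap (fun k => H (ψ k)) hle ?_ T (fun k => Φ k (T k))
    (fun k => hΦ k (T k)) (fun k => hF k (T k))
  intro g
  obtain ⟨i, hi⟩ := hG g
  exact ⟨i, hH (hψmono.id_le i) hi⟩

end Pool.Agent.H75.UL
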