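import Pool.Agent.H75.US.S0
import Pool.Agent.H75.UE.E1

/-!
# Project US, module S7: the universal and the adjoint folded groups

`pa_yp`: `yp C ρ j t` is the product of the `x_(simple (ρ^l j)) (t)`, `l < mo D (simple j)` (`D.ρ j = j` iff
`D.r (simple j) = simple j`: `r_simple`; `D.m = orderOf D.ρ`), and `yb` the product of the `s^l (xg (simple j) t) =
xg (D.r^[l] (simple j)) (sgp.. * t)` (`IsSig.iter`, `r_iter_simple`, `sg_simple`); `GU.lift_x`. `yp_mem`: as in
`yb_mem` (Z0.lean; `prod_x_mem`, `sg_fix`). `exists_paE`: `pa` maps `EE D K refl` onto `GF D K` (`pa_Eg` in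
H75/UE/E1) and is injective there (`hT.inj`). `paE_U`: `x ∈ EE`, `pa x ∈ fixU`: `pa_fixU` gives `v ∈ fixU` with
`pa v = pa x`, `v ∈ EE`, so `x = v` (injectivity).
-/

set_option autoImplicit false
open Matrix
universe u
namespace Pool.Agent.H75.UL

open Pool.Agent.H86 Pool.Agent.H86.UM

variable {n : ℕ} {C : SLC n} {D : Dg C} {t0 : Fin n → Fin n}

private theorem S7_iter {K : Type*} [Field K] {H : Type*} [Group H] {S : StSys C K H} {s : H →* H}
    (h : IsSig D (RingEquiv.refl K) S s) (l : ℕ) (j : Fin n) (t : K) :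
    s^[l] (S.x (C.simple j) t) = S.x (C.simple ((D.ρ ^ l) j)) t := by
  induction l with
  | zero => simp
  | succ l ih =>
    rw [Function.iterate_succ_apply', ih, h, D.r_simple, D.sg_simple, pow_succ',
      Equiv.Perm.mul_apply]
    simp

private theorem S7_iter_neg {K : Type*} [Field K] {H : Type*} [Group H] {S : StSys C K H}
    {s : H →* H} (h : IsSig D (RingEquiv.refl K) S s) (l : ℕ) (j : Fin n) (t : K) :
    s^[l] (S.x (-(C.simple j)) t) = S.x (-(C.simple ((D.ρ ^ l) j))) t := by
  induction l with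
  | zero => simp
  | succ l ih =>
    rw [Function.iterate_succ_apply', ih, h, D.r_neg, D.sg_neg, D.r_simple, D.sg_simple, pow_succ',
      Equiv.Perm.mul_apply]
    simp

private theorem S7_mo (D : Dg C) (j : Fin n) :
    mo D (C.simple j) = if D.ρ j = j then 1 else orderOf D.ρ := by
  have h1 : D.r (C.simple j) = C.simple j ↔ D.ρ j = j := by
    rw [D.r_simple]
    constructor
    · intro h
      by_contra hne
      have h2 := congrArg (fun β : C.Root => β.1 j) h
      simp only [SLC.simple] at h2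
      rw [Pi.single_eq_of_ne (fun h3 => hne h3.symm), Pi.single_eq_same] at h2
      exact absurd h2 (by norm_num)
    · intro h
      rw [h]
  unfold mo
  by_cases h : D.ρ j = j
  · rw [if_pos (h1.2 h), if_pos h]
  · rw [if_neg (fun h2 => h (h1.1 h2)), if_neg h]
    rfl

private theorem S7_mo_neg (D : Dg C) (j : Fin n) :
    mo D (-(C.simple j)) = if D.ρ j = j then 1 else orderOf D.ρ := by
  rw [← S7_mo]
  have h1 : D.r (-(C.simple j)) = -(C.simple j) ↔ D.r (C.simple j) = C.simple j := by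
    rw [D.r_neg]
    constructor
    · intro h
      rw [← C.neg_neg_root (D.r (C.simple j)), h, C.neg_neg_root]
    · intro h
      rw [h]
  unfold mo
  by_cases h : D.r (C.simple j) = C.simple j
  · rw [if_pos (h1.2 h), if_pos h]
  · rw [if_neg (fun h2 => h (h1.1 h2)), if_neg h]

private theorem S7_yb {K : Type*} [Field K] {H : Type*} [Group H] {S : StSys C K H} {s : H →* H}
    (h : IsSig D (RingEquiv.refl K) S s) (j : Fin n) (t : K) :
    yb D S s (C.simple j) t =
      ((List.range (if D.ρ j = j then 1 else orderOf D.ρ)).map fun l =>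
        S.x (C.simple ((D.ρ ^ l) j)) t).prod := by
  unfold yb
  rw [S7_mo]
  congr 1
  apply List.map_congr_left
  intro l _
  exact S7_iter h l j t

private theorem S7_yb_neg {K : Type*} [Field K] {H : Type*} [Group H] {S : StSys C K H}
    {s : H →* H} (h : IsSig D (RingEquiv.refl K) S s) (j : Fin n) (t : K) :
    yb D S s (-(C.simple j)) t =
      ((List.range (if D.ρ j = j then 1 else orderOf D.ρ)).map fun l =>
        S.x (-(C.simple ((D.ρ ^ l) j))) t).prod := by
  unfold yb
  rw [S7_mo_neg]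
  congr 1
  apply List.map_congr_left
  intro l _
  exact S7_iter_neg h l j t

private theorem S7_yb_mem {K : Type*} [Field K] {H : Type*} [Group H] {S : StSys C K H}
    {s : H →* H} (hN : D.NA) (hs : IsSig D (RingEquiv.refl K) S s) (β : C.Root) (t : K) :
    yb D S s β t ∈ Eg S s := by
  by_cases h : D.r β = β
  · have e : yb D S s β t = S.x β t := by
      unfold yb mo
      rw [if_pos h]
      simp
    have hf : s (S.x β t) = S.x β t := by
      rw [hs β t, h, D.sg_fix hN β h]
      simp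
    rw [e]
    by_cases hp : C.Pos β
    · refine (le_sup_left : fixU _ _ ≤ _) ⟨Subgroup.subset_closure ⟨β, t, ?_, rfl⟩, hf⟩
      unfold SLC.Pos at hp
      omega
    · refine (le_sup_right : fixUm _ _ ≤ _) ⟨Subgroup.subset_closure ⟨β, t, ?_, rfl⟩, hf⟩
      have := C.ht_ne_zero β
      unfold SLC.Pos at hp
      omega
  · have h1 := prod_x_mem hs (fun t => by simp [Function.iterate_fixed]) β h
      (D.ip_r_NA hN β h) t
    unfold yb mo
    rw [if_neg h]
    exact h1

private theorem S7_yp (D : Dg C) {K : Type u} [Field K] (j : Fin n) (t : K) :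
    LT.yp C D.ρ j t = yb D (GU.sys C K) (D.sig (RingEquiv.refl K)) (C.simple j) t := by
  rw [S7_yb (isSig_GU D (RingEquiv.refl K))]
  rfl

private theorem S7_ym (D : Dg C) {K : Type u} [Field K] (j : Fin n) (t : K) :
    LT.ym C D.ρ j t = yb D (GU.sys C K) (D.sig (RingEquiv.refl K)) (-(C.simple j)) t := by
  rw [S7_yb_neg (isSig_GU D (RingEquiv.refl K))]
  rfl

theorem pa_yp (hN : D.NA) {K : Type u} [Field K] (j : Fin n) (t : K) :
    pa C K (LT.yp C D.ρ j t) = yb D (C.adS K) (D.sgl (RingEquiv.refl K)) (C.simple j) t ∧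
    pa C K (LT.ym C D.ρ j t) = yb D (C.adS K) (D.sgl (RingEquiv.refl K)) (-(C.simple j)) t := by
  have hs : IsSig D (RingEquiv.refl K) (C.adS K) (D.sgl (RingEquiv.refl K)) := isSig_adS D _
  refine ⟨?_, ?_⟩
  · rw [S7_yb hs]
    unfold LT.yp
    rw [map_list_prod, List.map_map]
    congr 1
    apply List.map_congr_left
    intro l _
    exact GU.lift_x _ _ _
  · rw [S7_yb_neg hs]
    unfold LT.ym
    rw [map_list_prod, List.map_map]
    congr 1
    apply List.map_congr_left
    intro l _
    exact GU.lift_x _ _ _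

theorem yp_mem (hN : D.NA) {K : Type u} [Field K] (j : Fin n) (t : K) :
    LT.yp C D.ρ j t ∈ EE D K (RingEquiv.refl K) ∧ LT.ym C D.ρ j t ∈ EE D K (RingEquiv.refl K) := by
  rw [S7_yp, S7_ym]
  exact ⟨S7_yb_mem hN (isSig_GU D _) _ t, S7_yb_mem hN (isSig_GU D _) _ t⟩

private theorem S7_inj (hT : SRT.{u} D t0) {K : Type u} [Field K] (hK : CharP K D.m)
    (x y : GU C K) (hx : x ∈ EE D K (RingEquiv.refl K)) (hy : y ∈ EE D K (RingEquiv.refl K))
    (h : pa C K x = pa C K y) : x = y := by
  have h1 : x * y⁻¹ = 1 := by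
    apply hT.inj K hK _ (mul_mem hx (inv_mem hy))
    rw [map_mul, map_inv, h, mul_inv_cancel]
  exact mul_inv_eq_one.mp h1

theorem exists_paE (hT : SRT.{u} D t0) {K : Type u} [Field K] (hK : CharP K D.m) :
    ∃ e : EE D K (RingEquiv.refl K) ≃* GF D K,
      ∀ x : EE D K (RingEquiv.refl K), (e x : GL C.Idx K) = pa C K (x : GU C K) := by
  let f : EE D K (RingEquiv.refl K) →* GF D K :=
    ((pa C K).comp (EE D K (RingEquiv.refl K)).subtype).codRestrict (GF D K)
      (fun x => (pa_Eg D (RingEquiv.refl K) _).2 ⟨x, x.2, rfl⟩)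
  have hf : ∀ x : EE D K (RingEquiv.refl K), (f x : GL C.Idx K) = pa C K (x : GU C K) :=
    fun x => rfl
  have hb : Function.Bijective f := by
    constructor
    · intro x y hxy
      apply Subtype.ext
      apply S7_inj hT hK _ _ x.2 y.2
      rw [← hf, ← hf, hxy]
    · rintro ⟨y, hy⟩
      obtain ⟨v, hv, rfl⟩ := (pa_Eg D (RingEquiv.refl K) y).1 hy
      exact ⟨⟨v, hv⟩, Subtype.ext (hf _)⟩
  exact ⟨MulEquiv.ofBijective f hb, hf⟩

private theorem S7_Up (K : Type u) [Field K] : LT.Up C K = (GU.sys C K).U 1 := by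
  unfold LT.Up StSys.U
  congr 1

private theorem S7_Um (K : Type u) [Field K] : LT.Um C K = (GU.sys C K).Um := by
  unfold LT.Um StSys.Um
  congr 1

theorem paE_U (hT : SRT.{u} D t0) {K : Type u} [Field K] (hK : CharP K D.m)
    (x : GU C K) (hx : x ∈ EE D K (RingEquiv.refl K)) :
    (pa C K x ∈ fixU (C.adS K) (D.sgl (RingEquiv.refl K)) ↔ x ∈ LT.Up C K) ∧
    (pa C K x ∈ fixUm (C.adS K) (D.sgl (RingEquiv.refl K)) ↔ x ∈ LT.Um C K) := by
  have hfix : D.sig (RingEquiv.refl K) x = x := Eg_le_fix _ _ _ hx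
  refine ⟨?_, ?_⟩
  · rw [pa_fixU, S7_Up]
    constructor
    · rintro ⟨v, hv, h⟩
      have h1 : v = x := S7_inj hT hK v x ((le_sup_left : fixU _ _ ≤ _) hv) hx h
      rw [← h1]
      exact hv.1
    · intro h
      exact ⟨x, ⟨h, hfix⟩, rfl⟩
  · rw [pa_fixUm, S7_Um]
    constructor
    · rintro ⟨v, hv, h⟩
      have h1 : v = x := S7_inj hT hK v x ((le_sup_right : fixUm _ _ ≤ _) hv) hx h
      rw [← h1]
      exact hv.1
    · intro h
      exact ⟨x, ⟨h, hfix⟩, rfl⟩

end Pool.Agent.H75.UL
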