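import Pool.Agent.H75.US.S7

/-!
# Project US, module S8: the definition `IsSR` and the adjoint version `IsSRad`

`σ₀ = D.sig (RingEquiv.refl K)` (`isSigma_unique`, `isSigma_sig` in LT/Ext), `fixGroup σ₀ = EE D K refl`
(`fixGroup_sig`; transport with `MulEquiv.subgroupCongr` or `subst`). Let `e : fixGroup σ₀ ≃* GF D K` be the
isomorphism of `exists_paE`. `isSRad_of`: put `σ' = e ∘ σ ∘ e⁻¹`. `SRs.pos`: if `x = yb (simple j) t` then
`e⁻¹ x = yp j t` (`pa_yp`, `yp_mem`, injectivity), so `σ (e⁻¹ x) = yp (t0 j) (..)` and `pa_yp` again; `th` is the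
`if` in `IsSigmaEx` (`D.r (simple j) = simple j` iff `D.ρ j = j`). `e` maps `exGroup σ` onto `Esr D σ'`
(`paE_U`, `fixU`: elements of `EE` are fixed by `σ₀`, `Eg_le_fix`; the closure of a union is the supremum).
`G` is infinite, so `exGroup σ` is infinite, so `K` is infinite (`GF D K` is a subgroup of `GL`). `hT.center`: the
centre of `Esr D σ'` is trivial, so `f` is injective. `isSR_of`: put `σ = e⁻¹ ∘ σ' ∘ e`, `f` = the isomorphism.
-/

set_option autoImplicit false
open Matrix
universe u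
namespace Pool.Agent.H75.UL

open Pool.Agent.H86 Pool.Agent.H86.UM

variable {n : ℕ} {C : SLC n} {D : Dg C} {t0 : Fin n → Fin n}

private theorem S8_simple_inj {i j : Fin n} (h : C.simple i = C.simple j) : i = j := by
  have h1 := congrArg (fun β : C.Root => β.1 i) h
  change (Pi.single i (1 : ℤ) : Fin n → ℤ) i = (Pi.single j (1 : ℤ) : Fin n → ℤ) i at h1
  by_contra hij
  rw [Pi.single_eq_same, Pi.single_eq_of_ne hij] at h1
  exact one_ne_zero h1

private theorem S8_fix_iff (D : Dg C) (j : Fin n) :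
    D.r (C.simple j) = C.simple j ↔ D.ρ j = j := by
  rw [D.r_simple]
  exact ⟨fun h => S8_simple_inj h, fun h => by rw [h]⟩

private theorem S8_th (D : Dg C) {K : Type u} [Field K] (θ : K ≃+* K) (j : Fin n) (t : K) :
    th D θ (C.simple j) t = if D.ρ j = j then θ.symm t else θ t := by
  unfold th
  by_cases h : D.ρ j = j
  · rw [if_pos h, if_pos ((S8_fix_iff D j).2 h)]
  · rw [if_neg h, if_neg (fun h' => h ((S8_fix_iff D j).1 h'))]

/-- The isomorphism of the folded universal group and the folded group. -/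
private theorem S8_e (hT : SRT.{u} D t0) {K : Type u} [Field K] (hK : CharP K D.m) :
    ∃ e : LT.fixGroup (D.sig (RingEquiv.refl K)) ≃* GF D K,
      ∀ x : LT.fixGroup (D.sig (RingEquiv.refl K)),
        (e x : GL C.Idx K) = pa C K (x : GU C K) := by
  obtain ⟨e, he⟩ := exists_paE hT hK
  refine ⟨(MulEquiv.subgroupCongr (LT.fixGroup_sig D (RingEquiv.refl K))).trans e, fun x => ?_⟩
  exact he _

private theorem S8_mem (hT : SRT.{u} D t0) {K : Type u} [Field K] (j : Fin n) (t : K) :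
    LT.yp C D.ρ j t ∈ LT.fixGroup (D.sig (RingEquiv.refl K)) ∧
      LT.ym C D.ρ j t ∈ LT.fixGroup (D.sig (RingEquiv.refl K)) := by
  rw [LT.fixGroup_sig]
  exact yp_mem hT.swap.na j t

/-- The groups generated by fixed points correspond to each other. -/
private theorem S8_map (hT : SRT.{u} D t0) {K : Type u} [Field K] (hK : CharP K D.m)
    (e : LT.fixGroup (D.sig (RingEquiv.refl K)) ≃* GF D K)
    (he : ∀ x : LT.fixGroup (D.sig (RingEquiv.refl K)),
      (e x : GL C.Idx K) = pa C K (x : GU C K))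
    (σ : LT.fixGroup (D.sig (RingEquiv.refl K)) →* LT.fixGroup (D.sig (RingEquiv.refl K)))
    (σ' : GF D K →* GF D K) (hs : ∀ x, σ' (e x) = e (σ x)) :
    (LT.exGroup σ).map e.toMonoidHom = Esr D σ' := by
  have hE : ∀ x : LT.fixGroup (D.sig (RingEquiv.refl K)),
      (x : GU C K) ∈ EE D K (RingEquiv.refl K) := by
    intro x
    exact (LT.fixGroup_sig D (RingEquiv.refl K)).le x.2
  have hU : ∀ x : LT.fixGroup (D.sig (RingEquiv.refl K)),
      e x ∈ FU D K ↔ (x : GU C K) ∈ LT.Up C K := by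
    intro x
    unfold FU
    rw [Subgroup.mem_subgroupOf, he]
    exact (paE_U hT hK (x : GU C K) (hE x)).1
  have hUm : ∀ x : LT.fixGroup (D.sig (RingEquiv.refl K)),
      e x ∈ FUm D K ↔ (x : GU C K) ∈ LT.Um C K := by
    intro x
    unfold FUm
    rw [Subgroup.mem_subgroupOf, he]
    exact (paE_U hT hK (x : GU C K) (hE x)).2
  have hfx : ∀ x : LT.fixGroup (D.sig (RingEquiv.refl K)), e x ∈ Fx σ' ↔ σ x = x := by
    intro x
    rw [mem_Fx, hs]
    exact e.injective.eq_iff
  apply le_antisymm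
  · unfold LT.exGroup
    rw [MonoidHom.map_closure, Subgroup.closure_le]
    rintro _ ⟨g, ⟨hg, hg'⟩, rfl⟩
    rcases hg' with hg' | hg'
    · exact (le_sup_left : FU D K ⊓ Fx σ' ≤ Esr D σ') ⟨(hU g).2 hg', (hfx g).2 hg⟩
    · exact (le_sup_right : FUm D K ⊓ Fx σ' ≤ Esr D σ') ⟨(hUm g).2 hg', (hfx g).2 hg⟩
  · refine sup_le ?_ ?_
    · rintro x ⟨hx, hx'⟩
      obtain ⟨y, rfl⟩ := e.surjective x
      exact ⟨y, Subgroup.subset_closure ⟨(hfx y).1 hx', Or.inl ((hU y).1 hx)⟩, rfl⟩
    · rintro x ⟨hx, hx'⟩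
      obtain ⟨y, rfl⟩ := e.surjective x
      exact ⟨y, Subgroup.subset_closure ⟨(hfx y).1 hx', Or.inr ((hUm y).1 hx)⟩, rfl⟩

private theorem S8_equiv (hT : SRT.{u} D t0) {K : Type u} [Field K] (hK : CharP K D.m)
    (e : LT.fixGroup (D.sig (RingEquiv.refl K)) ≃* GF D K)
    (he : ∀ x : LT.fixGroup (D.sig (RingEquiv.refl K)),
      (e x : GL C.Idx K) = pa C K (x : GU C K))
    (σ : LT.fixGroup (D.sig (RingEquiv.refl K)) →* LT.fixGroup (D.sig (RingEquiv.refl K)))
    (σ' : GF D K →* GF D K) (hs : ∀ x, σ' (e x) = e (σ x)) :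
    Nonempty (LT.exGroup σ ≃* Esr D σ') :=
  ⟨(e.subgroupMap (LT.exGroup σ)).trans
    (MulEquiv.subgroupCongr (S8_map hT hK e he σ σ' hs))⟩

theorem isSRad_of (hT : SRT.{u} D t0) {G : Type u} [Group G] [Infinite G]
    (h : LT.IsSR C D.ρ t0 D.m G) : IsSRad D t0 G := by
  obtain ⟨K, _, θ, σ₀, σ, hK, hθ, h0, hσ, f, hf, hker⟩ := h
  obtain rfl := LT.isSigma_unique D.ρ (RingEquiv.refl K) _ _ h0
    (LT.isSigma_sig D (RingEquiv.refl K))
  obtain ⟨e, he⟩ := S8_e hT hK
  let σ' : GF D K →* GF D K := (e.toMonoidHom.comp σ).comp e.symm.toMonoidHom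
  have hs : ∀ x, σ' (e x) = e (σ x) := fun x => by
    change e (σ (e.symm (e x))) = e (σ x)
    rw [e.symm_apply_apply]
  have hSR : SRs D t0 θ σ' := by
    refine ⟨hK, hθ, fun j t x hx => ?_, fun j t x hx => ?_⟩
    · obtain ⟨y, rfl⟩ := e.surjective x
      have hy : y = ⟨LT.yp C D.ρ j t, (S8_mem hT j t).1⟩ := by
        apply e.injective
        apply Subtype.ext
        rw [hx, he]
        exact ((pa_yp hT.swap.na j t).1).symm
      have h1 := hσ.pos j t y (by rw [hy])
      rw [hs, he, h1, S8_th]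
      exact (pa_yp hT.swap.na (t0 j) _).1
    · obtain ⟨y, rfl⟩ := e.surjective x
      have hy : y = ⟨LT.ym C D.ρ j t, (S8_mem hT j t).2⟩ := by
        apply e.injective
        apply Subtype.ext
        rw [hx, he]
        exact ((pa_yp hT.swap.na j t).2).symm
      have h1 := hσ.neg j t y (by rw [hy])
      rw [hs, he, h1, S8_th]
      exact (pa_yp hT.swap.na (t0 j) _).2
  obtain ⟨E⟩ := S8_equiv hT hK e he σ σ' hs
  have hinf : Infinite K := by
    by_contra hfin
    rw [not_infinite_iff_finite] at hfin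
    have h1 : Infinite (LT.exGroup σ) := Infinite.of_surjective f hf
    have h2 : Infinite (Esr D σ') := Infinite.of_injective E E.injective
    have h3 : Finite (Matrix C.Idx C.Idx K) := inferInstance
    have h4 : Finite (GL C.Idx K) := Finite.of_injective _ Units.val_injective
    have h5 : Finite (Esr D σ') := Finite.of_injective (em : Esr D σ' → GL C.Idx K) em_injective
    exact not_finite_iff_infinite.2 h2 h5
  have hc := hT.center K θ σ' hSR
  have hinj : Function.Injective f := by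
    rw [← MonoidHom.ker_eq_bot_iff, eq_bot_iff]
    intro z hz
    have h1 := hker hz
    have h2 : E z ∈ Subgroup.center (Esr D σ') := by
      rw [Subgroup.mem_center_iff] at h1 ⊢
      intro y
      obtain ⟨x, rfl⟩ := E.surjective y
      rw [← map_mul, h1 x, map_mul]
    rw [hc, Subgroup.mem_bot] at h2
    rw [Subgroup.mem_bot]
    apply E.injective
    rw [h2, map_one]
  exact ⟨K, _, θ, σ', hSR, ⟨(MulEquiv.ofBijective f ⟨hinj, hf⟩).symm.trans E⟩⟩

theorem isSR_of (hT : SRT.{u} D t0) {G : Type u} [Group G] (h : IsSRad D t0 G) :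
    LT.IsSR C D.ρ t0 D.m G := by
  obtain ⟨K, _, θ, σ', hSR, ⟨e'⟩⟩ := h
  obtain ⟨e, he⟩ := S8_e hT hSR.chr
  let σ : LT.fixGroup (D.sig (RingEquiv.refl K)) →* LT.fixGroup (D.sig (RingEquiv.refl K)) :=
    (e.symm.toMonoidHom.comp σ').comp e.toMonoidHom
  have hs : ∀ x, σ' (e x) = e (σ x) := fun x => by
    change σ' (e x) = e (e.symm (σ' (e x)))
    rw [e.apply_symm_apply]
  have hσ : LT.IsSigmaEx D.ρ t0 θ σ := by
    refine ⟨fun i t x hx => ?_, fun i t x hx => ?_⟩
    · have h1 := hSR.pos i t (e x) (by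
        rw [he, hx]
        exact (pa_yp hT.swap.na i t).1)
      have h2 : σ x = ⟨LT.yp C D.ρ (t0 i) (if D.ρ i = i then θ.symm t else θ t),
          (S8_mem hT (t0 i) _).1⟩ := by
        apply e.injective
        apply Subtype.ext
        rw [← hs, h1, he, S8_th]
        exact ((pa_yp hT.swap.na (t0 i) _).1).symm
      rw [h2]
    · have h1 := hSR.neg i t (e x) (by
        rw [he, hx]
        exact (pa_yp hT.swap.na i t).2)
      have h2 : σ x = ⟨LT.ym C D.ρ (t0 i) (if D.ρ i = i then θ.symm t else θ t),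
          (S8_mem hT (t0 i) _).2⟩ := by
        apply e.injective
        apply Subtype.ext
        rw [← hs, h1, he, S8_th]
        exact ((pa_yp hT.swap.na (t0 i) _).2).symm
      rw [h2]
  obtain ⟨E⟩ := S8_equiv hT hSR.chr e he σ σ' hs
  refine ⟨K, _, θ, D.sig (RingEquiv.refl K), σ, hSR.chr, hSR.hθ,
    LT.isSigma_sig D (RingEquiv.refl K), hσ, (E.trans e'.symm).toMonoidHom,
    (E.trans e'.symm).surjective, ?_⟩
  intro z hz
  have h1 : z = 1 := (E.trans e'.symm).injective (by
    rw [map_one]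
    exact hz)
  rw [h1]
  exact Subgroup.one_mem _

end Pool.Agent.H75.UL
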