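import Pool.Agent.H75.US.SI1

/-!
# Project US, module SI2: the adjoint representation is injective on the folded groups

`x = ∏ h_i(t_i)`, `∏_i t_i ^ A_ij = 1` (`pa_ker_form`).
`A₃`, characteristic `2`: `t₀² = t₁`, `t₁² = t₀ t₂`, `t₂² = t₁`: so `t₀² = t₂²`, `t₀ = t₂` (characteristic `2`),
`t₁² = t₀²`, `t₁ = t₀`, `t₀² = t₀`, all `t_i = 1`.
`D₄` (centre `1`), characteristic `3`: `t₀² = t₁`, `t₂² = t₁`, `t₃² = t₁`, `t₁² = t₀ t₂ t₃`: so `t₁⁴ = t₁³`, `t₁ = 1`,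
`t_i² = 1`, `t₀ t₂ t₃ = 1`. `x` is fixed by `s = D.sig refl` (`Eg_le_fix`), `s (h_i(t)) = h_(ρ i)(t)`
(`IsSig.map_hh`, `sg_simple`), so (`T` is commutative, `h_mul`) `x³ = x s(x) s²(x) = ∏_(i = 0, 2, 3)
h_i(t₀ t₂ t₃) = 1` and `x² = ∏ h_i(t_i²) = 1`; so `x = 1`.
`E₆` (nodes `0 - 2 - 3 - 4 - 5`, `1 - 3`): `t₀² = t₂`, `t₂² = t₀ t₃`, `t₁² = t₃`, `t₃² = t₁ t₂ t₄`, `t₄² = t₃ t₅`,
`t₅² = t₄`: so `t₂ = t₀²`, `t₃ = t₀³`, `t₄ = t₅²`, `t₃ = t₅³`, `t₁² = t₃`, `t₃² = t₁ t₀² t₅²`; so `t₃⁴ = t₁² t₀⁴ t₅⁴ =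
t₃ t₀⁴ t₅⁴`, `t₃³ = t₀⁴ t₅⁴`, cube: `t₃⁹ = t₃⁸`, `t₃ = 1`, `t₁² = 1`, `t₀³ = 1`, `t₅³ = 1`, `t₁ = (t₀ t₅)⁻²`, so
`t₁³ = 1`, `t₁ = 1`, `(t₀ t₅)² = 1` and `(t₀ t₅)³ = 1`, `t₀ t₅ = 1`. So `x³ = 1`, and `x² = x s(x) = ∏ h_i(t_i t_(ρ i)) = 1`
(`t₀ t₅ = 1`, `t₂ t₄ = 1`, `t₁ = t₃ = 1`); `x = 1`.
-/

set_option autoImplicit false
open Matrix
universe u
namespace Pool.Agent.H75.UL

open Pool.Agent.H86 Pool.Agent.H86.UM

universe v
section aux
variable {n : ℕ} {C : SLC n} {K : Type u} [Field K] {H : Type v} [Group H]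

/-- the torus as a commutative group -/
@[reducible] private def SI2_cg (S : StSys C K H) : CommGroup S.T :=
  { (inferInstance : Group S.T) with
    mul_comm := fun a b => Subtype.ext (S.T_comm a b a.2 b.2) }

/-- the one parameter subgroups of the torus -/
private def SI2_h (S : StSys C K H) (i : Fin n) : Kˣ →* S.T :=
  MonoidHom.mk' (fun t => ⟨hh S.x (C.simple i) (t : K), Subgroup.subset_closure
    ⟨C.simple i, t, t.ne_zero, rfl⟩⟩) (by
      intro a b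
      apply Subtype.ext
      change hh S.x (C.simple i) ((a * b : Kˣ) : K) = _ * _
      rw [S.h_mul _ _ _ a.ne_zero b.ne_zero, Units.val_mul])

private theorem SI2_h_val (S : StSys C K H) (i : Fin n) (t : Kˣ) :
    ((SI2_h S i t : S.T) : H) = hh S.x (C.simple i) (t : K) := rfl

/-- the element of the torus with coordinates `t`, nodes renamed by `p` -/
private def SI2_P (S : StSys C K H) (p : Fin n → Fin n) (t : Fin n → Kˣ) : S.T :=
  letI := SI2_cg S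
  ∏ i, SI2_h S (p i) (t i)

private theorem SI2_P_val (S : StSys C K H) (p : Fin n → Fin n) (t : Fin n → Kˣ) :
    ((SI2_P S p t : S.T) : H) =
      ((List.finRange n).map fun i => hh S.x (C.simple (p i)) (t i : K)).prod := by
  let _ := SI2_cg S
  have h1 : SI2_P S p t = ((List.finRange n).map fun i => SI2_h S (p i) (t i)).prod :=
    Fin.prod_univ_def _
  rw [h1]
  have h2 := map_list_prod S.T.subtype ((List.finRange n).map fun i => SI2_h S (p i) (t i))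
  rw [List.map_map] at h2
  exact h2

private theorem SI2_sig (D : Dg C) (S : StSys C K H) (s : H →* H)
    (hs : IsSig D (RingEquiv.refl K) S s) (p : Fin n → Fin n) (t : Fin n → Kˣ) :
    s ((SI2_P S p t : S.T) : H) = ((SI2_P S (fun i => D.ρ (p i)) t : S.T) : H) := by
  rw [SI2_P_val, SI2_P_val, map_list_prod, List.map_map]
  congr 1
  apply List.map_congr_left
  intro i _
  change s (hh S.x (C.simple (p i)) (t i : K)) = _
  rw [hs.map_hh _ _ (t i).ne_zero, D.r_simple]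
  rfl

private theorem SI2_key (D : Dg C) (S : StSys C K H) (s : H →* H)
    (hs : IsSig D (RingEquiv.refl K) S s) (x : H) (hx : s x = x) (t : Fin n → Kˣ)
    (h : x = ((List.finRange n).map fun i => hh S.x (C.simple i) (t i : K)).prod)
    (ht : ∀ j, ∏ i, (t i) ^ C.A i j = 1)
    (key : ∀ (M : Type v) (_ : AddCommGroup M) (f : Fin n → Additive Kˣ →+ M)
      (t : Fin n → Additive Kˣ), (∀ j, ∑ i, C.A i j • t i = 0) → ∀ y : M, y = ∑ i, f i (t i) →
      y = ∑ i, f (D.ρ i) (t i) → y = ∑ i, f (D.ρ (D.ρ i)) (t i) → y = 0) : x = 1 := by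
  let _ := SI2_cg S
  have h0 : x = ((SI2_P S (fun i => i) t : S.T) : H) := by rw [SI2_P_val]; exact h
  have h1 : x = ((SI2_P S (fun i => D.ρ i) t : S.T) : H) := by
    rw [← SI2_sig D S s hs (fun i => i) t, ← h0, hx]
  have h2 : x = ((SI2_P S (fun i => D.ρ (D.ρ i)) t : S.T) : H) := by
    rw [← SI2_sig D S s hs (fun i => D.ρ i) t, ← h1, hx]
  have h3 := key (Additive S.T) inferInstance
    (fun i => MonoidHom.toAdditive (SI2_h S i)) (fun i => Additive.ofMul (t i))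
    (fun j => by
      have := congrArg Additive.ofMul (ht j)
      rw [ofMul_prod] at this
      simpa using this)
    (Additive.ofMul (SI2_P S (fun i => i) t)) rfl
    (congrArg Additive.ofMul (Subtype.ext (h0.symm.trans h1)))
    (congrArg Additive.ofMul (Subtype.ext (h0.symm.trans h2)))
  rw [h0]
  exact congrArg (fun z : Additive S.T => ((z.toMul : S.T) : H)) h3

end aux

private theorem SI2_D4 (M G : Type*) [AddCommGroup M] [AddCommGroup G] (f : Fin 4 → G →+ M)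
    (t : Fin 4 → G) (h : ∀ j, ∑ i, cD4.A i j • t i = 0) (y : M) (h0 : y = ∑ i, f i (t i))
    (h1 : y = ∑ i, f (dD4.ρ i) (t i)) (h2 : y = ∑ i, f (dD4.ρ (dD4.ρ i)) (t i)) : y = 0 := by
  have e0 := h 0
  have e1 := h 1
  have e2 := h 2
  have e3 := h 3
  simp only [Fin.sum_univ_four] at e0 e1 e2 e3 h0 h1 h2
  have r0 : dD4.ρ 0 = 2 := rfl
  have r1 : dD4.ρ 1 = 1 := rfl
  have r2 : dD4.ρ 2 = 3 := rfl
  have r3 : dD4.ρ 3 = 0 := rfl
  simp only [r0, r1, r2, r3] at h1 h2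
  simp [cD4] at e0 e1 e2 e3
  have t1 : t 1 = 0 := by
    linear_combination (norm := module) (2 : ℤ) • e1 + e0 + e2 + e3
  have hx : (3 : ℤ) • y = 0 := by
    have : (3 : ℤ) • y = f 0 (t 0 + t 2 + t 3) + f 2 (t 0 + t 2 + t 3) + f 3 (t 0 + t 2 + t 3) +
        (3 : ℤ) • f 1 (t 1) := by
      simp only [_root_.map_add]
      linear_combination (norm := module) h0 + h1 + h2
    rw [this, t1]
    have : t 0 + t 2 + t 3 = 0 := by
      rw [t1] at e1
      linear_combination (norm := module) - e1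
    simp [this]
  have hy : (2 : ℤ) • y = 0 := by
    have : (2 : ℤ) • y = f 0 ((2 : ℤ) • t 0) + (2 : ℤ) • f 1 (t 1) + f 2 ((2 : ℤ) • t 2) +
        f 3 ((2 : ℤ) • t 3) := by
      simp only [_root_.map_zsmul]
      linear_combination (norm := module) (2 : ℤ) • h0
    rw [this, t1]
    have a0 : (2 : ℤ) • t 0 = 0 := by
      rw [t1] at e0
      linear_combination (norm := module) e0
    have a2 : (2 : ℤ) • t 2 = 0 := by
      rw [t1] at e2
      linear_combination (norm := module) e2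
    have a3 : (2 : ℤ) • t 3 = 0 := by
      rw [t1] at e3
      linear_combination (norm := module) e3
    rw [a0, a2, a3]
    simp
  linear_combination (norm := module) hx - hy

private theorem SI2_E6 (M G : Type*) [AddCommGroup M] [AddCommGroup G] (f : Fin 6 → G →+ M)
    (t : Fin 6 → G) (h : ∀ j, ∑ i, cE6.A i j • t i = 0) (y : M) (h0 : y = ∑ i, f i (t i))
    (h1 : y = ∑ i, f (dE6.ρ i) (t i)) : y = 0 := by
  have e0 := h 0
  have e1 := h 1
  have e2 := h 2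
  have e3 := h 3
  have e4 := h 4
  have e5 := h 5
  simp only [Fin.sum_univ_six] at e0 e1 e2 e3 e4 e5 h0 h1
  have r0 : dE6.ρ 0 = 5 := rfl
  have r1 : dE6.ρ 1 = 1 := rfl
  have r2 : dE6.ρ 2 = 4 := rfl
  have r3 : dE6.ρ 3 = 3 := rfl
  have r4 : dE6.ρ 4 = 2 := rfl
  have r5 : dE6.ρ 5 = 0 := rfl
  simp only [r0, r1, r2, r3, r4, r5] at h1
  simp [cE6] at e0 e1 e2 e3 e4 e5
  have t3 : t 3 = 0 := by
    linear_combination (norm := module) (2 : ℤ) • e0 + (3 : ℤ) • e1 + (4 : ℤ) • e2 +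
      (6 : ℤ) • e3 + (4 : ℤ) • e4 + (2 : ℤ) • e5
  have t1 : t 1 = 0 := by
    linear_combination (norm := module) (1 : ℤ) • e0 + (2 : ℤ) • e1 + (2 : ℤ) • e2 +
      (3 : ℤ) • e3 + (2 : ℤ) • e4 + (1 : ℤ) • e5
  have t05 : t 0 + t 5 = 0 := by
    linear_combination (norm := module) (2 : ℤ) • e0 + (2 : ℤ) • e1 + (3 : ℤ) • e2 +
      (4 : ℤ) • e3 + (3 : ℤ) • e4 + (2 : ℤ) • e5
  have t24 : t 2 + t 4 = 0 := by
    linear_combination (norm := module) (3 : ℤ) • e0 + (4 : ℤ) • e1 + (6 : ℤ) • e2 +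
      (8 : ℤ) • e3 + (6 : ℤ) • e4 + (3 : ℤ) • e5
  have t0 : (3 : ℤ) • t 0 = 0 := by
    linear_combination (norm := module) (4 : ℤ) • e0 + (3 : ℤ) • e1 + (5 : ℤ) • e2 +
      (6 : ℤ) • e3 + (4 : ℤ) • e4 + (2 : ℤ) • e5
  have t5 : (3 : ℤ) • t 5 = 0 := by
    linear_combination (norm := module) (2 : ℤ) • e0 + (3 : ℤ) • e1 + (4 : ℤ) • e2 +
      (6 : ℤ) • e3 + (5 : ℤ) • e4 + (4 : ℤ) • e5
  have t2 : (3 : ℤ) • t 2 = 0 := by
    linear_combination (norm := module) (5 : ℤ) • e0 + (6 : ℤ) • e1 + (10 : ℤ) • e2 +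
      (12 : ℤ) • e3 + (8 : ℤ) • e4 + (4 : ℤ) • e5
  have t4 : (3 : ℤ) • t 4 = 0 := by
    linear_combination (norm := module) (4 : ℤ) • e0 + (6 : ℤ) • e1 + (8 : ℤ) • e2 +
      (12 : ℤ) • e3 + (10 : ℤ) • e4 + (5 : ℤ) • e5
  have hx : (3 : ℤ) • y = 0 := by
    have : (3 : ℤ) • y = f 0 ((3 : ℤ) • t 0) + (3 : ℤ) • f 1 (t 1) + f 2 ((3 : ℤ) • t 2) +
        (3 : ℤ) • f 3 (t 3) + f 4 ((3 : ℤ) • t 4) + f 5 ((3 : ℤ) • t 5) := by
      simp only [_root_.map_zsmul]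
      linear_combination (norm := module) (3 : ℤ) • h0
    rw [this, t1, t0, t2, t3, t4, t5]
    simp
  have hy : (2 : ℤ) • y = 0 := by
    have : (2 : ℤ) • y = f 0 (t 0 + t 5) + (2 : ℤ) • f 1 (t 1) + f 2 (t 2 + t 4) +
        (2 : ℤ) • f 3 (t 3) + f 4 (t 2 + t 4) + f 5 (t 0 + t 5) := by
      simp only [_root_.map_add]
      linear_combination (norm := module) h0 + h1
    rw [this, t1, t05, t24, t3]
    simp
  linear_combination (norm := module) hx - hy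



theorem inj_A3 (K : Type u) [Field K] (hK : CharP K 2) (x : GU cA3 K)
    (hx : x ∈ EE dA3 K (RingEquiv.refl K)) (h : pa cA3 K x = 1) : x = 1 := by
  obtain ⟨t, ht, hA⟩ := pa_ker_form x h
  refine SI2_key dA3 (GU.sys cA3 K) _ (isSig_GU dA3 _) x (Eg_le_fix _ _ x hx) t ht hA ?_
  intro M _ f t h y h0 _ _
  have no2 : ∀ a : Additive Kˣ, (2 : ℤ) • a = 0 → a = 0 := by
    intro a ha
    have h1 : (a.toMul : Kˣ) ^ (2 : ℤ) = 1 := ha
    have h2 : ((a.toMul : Kˣ) : K) ^ 2 = 1 := by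
      have := congrArg (fun u : Kˣ => (u : K)) h1
      simpa [zpow_ofNat] using this
    have h3 : ((a.toMul : Kˣ) : K) = 1 := by
      have h4 : (((a.toMul : Kˣ) : K) - 1) ^ 2 = 0 := by
        have h5 : (2 : K) = 0 := CharP.cast_eq_zero K 2
        linear_combination h2 + (1 - ((a.toMul : Kˣ) : K)) * h5
      exact sub_eq_zero.mp (pow_eq_zero_iff two_ne_zero |>.mp h4)
    exact congrArg Additive.ofMul (Units.ext h3)
  have e0 := h 0
  have e1 := h 1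
  have e2 := h 2
  simp only [Fin.sum_univ_three] at e0 e1 e2 h0
  simp [cA3] at e0 e1 e2
  have t02 : t 0 - t 2 = 0 := no2 _ (by linear_combination (norm := module) e0 - e2)
  have t0 : t 0 = 0 := no2 _ (by
    linear_combination (norm := module) (2 : ℤ) • e0 + e1 - t02)
  have t1 : t 1 = 0 := by
    rw [t0] at e0
    linear_combination (norm := module) - e0
  have t2 : t 2 = 0 := by
    rw [t0] at t02
    linear_combination (norm := module) - t02
  rw [h0, t0, t1, t2]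
  simp

theorem inj_D4 (K : Type u) [Field K] (hK : CharP K 3) (x : GU cD4 K)
    (hx : x ∈ EE dD4 K (RingEquiv.refl K)) (h : pa cD4 K x = 1) : x = 1 := by
  obtain ⟨t, ht, hA⟩ := pa_ker_form x h
  refine SI2_key dD4 (GU.sys cD4 K) _ (isSig_GU dD4 _) x (Eg_le_fix _ _ x hx) t ht hA ?_
  intro M _ f t h y h0 h1 h2
  exact SI2_D4 M _ f t h y h0 h1 h2

theorem inj_E6 (K : Type u) [Field K] (hK : CharP K 2) (x : GU cE6 K)
    (hx : x ∈ EE dE6 K (RingEquiv.refl K)) (h : pa cE6 K x = 1) : x = 1 := by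
  obtain ⟨t, ht, hA⟩ := pa_ker_form x h
  refine SI2_key dE6 (GU.sys cE6 K) _ (isSig_GU dE6 _) x (Eg_le_fix _ _ x hx) t ht hA ?_
  intro M _ f t h y h0 h1 _
  exact SI2_E6 M _ f t h y h0 h1

end Pool.Agent.H75.UL
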