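import Pool.Agent.H75.US.S6
import Pool.Agent.H75.US.S8
import Pool.Agent.H75.US.SI2
import Pool.Agent.H75.UE.M2

/-!
# Project US, module S9: assembly for the Suzuki-Ree types and all types
-/

set_option autoImplicit false
open Matrix
universe u
namespace Pool.Agent.H75.UL

open Pool.Agent.H86 Pool.Agent.H86.UM Pool.Agent.H75.LT

theorem isLie_iff_TT (r : ℕ) (G : Type u) [Group G] :
    IsLie r G ↔ ∃ t : TT r, IsE t.D t.tw G := by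
  constructor
  · rintro ⟨n, C, ρ, tw, hn, hs, hr, hT⟩
    exact ⟨⟨n, C, ⟨ρ, hs.map, hs.ord⟩, tw, hn, hr⟩, (isType_iff ⟨ρ, hs.map, hs.ord⟩ tw G).1 hT⟩
  · rintro ⟨t, ht⟩
    exact ⟨t.n, t.C, t.D.ρ, t.tw, t.pos, ⟨t.D.hρ, t.D.ord⟩, t.rank, (isType_iff t.D t.tw G).2 ht⟩

/-- Untwisted and Steinberg types. -/
theorem main_Lie (r : ℕ) (G : Type u) [Group G] (H : ℕ → Subgroup G) (hH : Monotone H)
    (hG : ∀ g : G, ∃ i, g ∈ H i) (hL : ∀ m : ℕ, ∃ i, m ≤ i ∧ IsLie r (H i))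
    (hinf : ∃ i, Infinite (H i)) : IsLie r G := by
  have h1 : ∀ m : ℕ, ∃ i, m ≤ i ∧ ∃ t : TT r, True ∧ IsE t.D t.tw (H i) := by
    intro m
    obtain ⟨i, hi, hl⟩ := hL m
    obtain ⟨t, ht⟩ := (isLie_iff_TT r (H i)).1 hl
    exact ⟨i, hi, t, trivial, ht⟩
  obtain ⟨t, -, ht⟩ := main_all r (fun _ => True) G H hH hG h1 hinf
  exact (isLie_iff_TT r G).2 ⟨t, ht⟩

/-- One Suzuki-Ree type. -/
theorem main_IsSR {n : ℕ} {C : SLC n} {D : Dg C} {t0 : Fin n → Fin n} (hT : SRT.{u} D t0)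
    {p : ℕ} (hp : D.m = p) (G : Type u) [Group G] (H : ℕ → Subgroup G) (hH : Monotone H)
    (hG : ∀ g : G, ∃ i, g ∈ H i) (hL : ∀ m : ℕ, ∃ i, m ≤ i ∧ IsSR C D.ρ t0 p (H i))
    (hinf : ∃ i, Infinite (H i)) : IsSR C D.ρ t0 p G := by
  subst hp
  obtain ⟨i₀, hi₀⟩ := hinf
  refine isSR_of hT (main_SR hT G H hH hG ?_ ⟨i₀, hi₀⟩)
  intro m
  obtain ⟨i, hi, hl⟩ := hL (max m i₀)
  have hinf : Infinite (H i) := Infinite.of_injective _
    (Subgroup.inclusion_injective (hH ((le_max_right m i₀).trans hi)))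
  exact ⟨i, (le_max_left m i₀).trans hi, isSRad_of hT hl⟩

/-- Pigeonhole principle for a disjunction. -/
theorem often_or {P Q : ℕ → Prop} (h : ∀ m : ℕ, ∃ i, m ≤ i ∧ (P i ∨ Q i)) :
    (∀ m : ℕ, ∃ i, m ≤ i ∧ P i) ∨ ∀ m : ℕ, ∃ i, m ≤ i ∧ Q i := by
  by_contra hc
  rw [not_or] at hc
  obtain ⟨h1, h2⟩ := hc
  push Not at h1 h2
  obtain ⟨a, ha⟩ := h1
  obtain ⟨b, hb⟩ := h2
  obtain ⟨i, hi, hP | hQ⟩ := h (max a b)
  · exact ha i ((le_max_left a b).trans hi) hP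
  · exact hb i ((le_max_right a b).trans hi) hQ

/-- All types. -/
theorem main_LieType (hA : SRT.{u} dA3 tA3) (hD : SRT.{u} dD4 tD4) (hE : SRT.{u} dE6 tE6) (r : ℕ)
    (G : Type u) [Group G] (H : ℕ → Subgroup G) (hH : Monotone H)
    (hG : ∀ g : G, ∃ i, g ∈ H i) (hL : ∀ m : ℕ, ∃ i, m ≤ i ∧ IsLieType r (H i))
    (hinf : ∃ i, Infinite (H i)) : IsLieType r G := by
  have key : ∀ {a : ℕ} {n : ℕ} {C : SLC n} {D : Dg C} {t0 : Fin n → Fin n} {p : ℕ},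
      SRT.{u} D t0 → D.m = p → (∀ m : ℕ, ∃ i, m ≤ i ∧ (r = a ∧ IsSR C D.ρ t0 p (H i))) →
      r = a ∧ IsSR C D.ρ t0 p G := by
    intro a n C D t0 p hT hp h
    obtain ⟨i, -, hr, -⟩ := h 0
    refine ⟨hr, main_IsSR hT hp G H hH hG (fun m => ?_) hinf⟩
    obtain ⟨i, hi, -, hs⟩ := h m
    exact ⟨i, hi, hs⟩
  rcases often_or hL with h | h
  · exact Or.inl (main_Lie r G H hH hG h hinf)
  rcases often_or h with h | h
  · exact Or.inr (Or.inl (key hA dA3_m h))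
  rcases often_or h with h | h
  · exact Or.inr (Or.inr (Or.inl (key hD dD4_m h)))
  · exact Or.inr (Or.inr (Or.inr (key hE dE6_m h)))

end Pool.Agent.H75.UL
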