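import Pool.Agent.H75.US.S0

/-!
# Project US, module SI1: the kernel of the adjoint representation

`hh_conj`: `nn β 1 * hh α t * (nn β 1)⁻¹ = hh (s_β α) t`: `nn β 1` maps `x_(±α)(u)` to `x_(±s_β α)(c u)`,
`c = ± 1` (the same sign for `α` and `-α`; see `n_conj_all` / S-modules of H75/UL), so `nn α u` to
`nn (s_β α) (c u)` and `hh α t = nn α t * nn α (-1)` to `nn (c t) nn (-c)`, which is `hh t` also for `c = -1`
(`h_mul` with `s = t`, `hh (-1)`; or `nn (-t) = nn t⁻¹..`: `hh (c t) * (hh c)⁻¹`).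
`hh_add`: `γ = α + β`, `ip α β = -1`: `s_β α = γ`; `nn β 1 * hh α t * (nn β 1)⁻¹ =
hh α t * ((hh α t)⁻¹ * nn β 1 * hh α t) * (nn β 1)⁻¹`, and `hh α t` acts on `x_(±β)(u)` by `t^(±(-1))`
(relation of `hh` with root elements, in the S-modules), so `(hh α t)⁻¹ nn β 1 hh α t = nn β t`; so the product is
`hh α t * nn β t * (nn β 1)⁻¹ = hh α t * hh β t` (`(nn β 1)⁻¹ = nn β (-1)`).
`hh_neg`: `hh (-α) t = (hh α t)⁻¹` (`s_α α = -α`, the same calculation with `ip α α = 2`: `hh α t * nn α (t⁻²)..`; or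
`nn (-α) t = nn α (t⁻¹)` up to sign). `T_form`: the elements `∏ hh (simple i) (t i)` form a subgroup (`T_comm`,
`h_mul`), and each `hh β t` is in it: induction on the height (`exists_descent`: `β = α_i + γ`).
`pa_ker_form`: the proof of `ker_central` (H75/UL/S9) shows that the kernel is contained in `T` (copy it);
`pa` maps `hh α t` to an element acting on `e_β` by `t ^ ip α β`; compare the coefficient at
`inr (simple j)`.
-/

set_option autoImplicit false
open Matrix
universe u
namespace Pool.Agent.H75.UL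

open Pool.Agent.H86 Pool.Agent.H86.UM

variable {n : ℕ} {C : SLC n}

private theorem SI1_cs_neg (α β : C.Root) : C.cs α (-β) = C.cs α β := by
  unfold SLC.cs
  rw [SLC.Root.neg_val, C.ip_neg_right, C.eps_neg_right]
  by_cases h : C.ip α.1 β.1 = 1 ∨ C.ip α.1 β.1 = -1
  · rw [if_pos h, if_pos (by omega)]
  · rw [if_neg h, if_neg (by omega)]

private theorem SI1_cs (α β : C.Root) : C.cs α β = 1 ∨ C.cs α β = -1 := by
  unfold SLC.cs
  split_ifs
  · exact C.eps_eq_one_or _ _
  · exact Or.inl rfl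

private theorem SI1_nn_conj {K : Type*} [Field K] {H : Type*} [Group H] (S : StSys C K H)
    (g : H) (c : K) (β δ : C.Root)
    (h1 : ∀ u, g * S.x β u * g⁻¹ = S.x δ (c * u))
    (h2 : ∀ u, g * S.x (-β) u * g⁻¹ = S.x (-δ) (c⁻¹ * u)) (t : K) :
    g * nn S.x β t * g⁻¹ = nn S.x δ (c * t) := by
  unfold nn
  rw [mul_inv, ← h1, ← h2]
  group

private theorem SI1_hh_scale {K : Type*} [Field K] {H : Type*} [Group H] (S : StSys C K H)
    (β : C.Root) (c t : K) (hc0 : c ≠ 0) (ht : t ≠ 0) :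
    nn S.x β (c * t) * nn S.x β (c * (-1)) = hh S.x β t := by
  have h5 := S.h_mul β t c ht hc0
  have h6 : hh S.x β t = hh S.x β (t * c) * (hh S.x β c)⁻¹ := by
    rw [← h5, mul_assoc, mul_inv_cancel, mul_one]
  rw [h6]
  unfold hh
  rw [mul_neg, mul_one, ← S.nn_inv, mul_comm t c]
  group

private theorem SI1_hh_conj {K : Type*} [Field K] {H : Type*} [Group H] (S : StSys C K H)
    (g : H) (c : K) (hc0 : c ≠ 0) (β δ : C.Root)
    (h1 : ∀ u, g * S.x β u * g⁻¹ = S.x δ (c * u))
    (h2 : ∀ u, g * S.x (-β) u * g⁻¹ = S.x (-δ) (c⁻¹ * u)) (t : K) (ht : t ≠ 0) :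
    g * hh S.x β t * g⁻¹ = hh S.x δ t := by
  rw [← SI1_hh_scale S δ c t hc0 ht, ← SI1_nn_conj S g c β δ h1 h2 t,
    ← SI1_nn_conj S g c β δ h1 h2 (-1)]
  conv_lhs => unfold hh
  group

private theorem SI1_refl_conj {K : Type*} [Field K] {H : Type*} [Group H] (S : StSys C K H)
    (α β : C.Root) (t : K) (ht : t ≠ 0) :
    nn S.x β 1 * hh S.x α t * (nn S.x β 1)⁻¹ = hh S.x (C.refl β α) t := by
  have hc : ((C.cs β α : ℤ) : K) = 1 ∨ ((C.cs β α : ℤ) : K) = -1 := by
    rcases SI1_cs β α with h | h <;> rw [h]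
    · left; norm_num
    · right; norm_num
  have hc0 : ((C.cs β α : ℤ) : K) ≠ 0 := by
    rcases hc with h | h <;> rw [h]
    · exact one_ne_zero
    · exact neg_ne_zero.2 one_ne_zero
  have hci : (((C.cs β α : ℤ) : K))⁻¹ = ((C.cs β α : ℤ) : K) := by
    rcases hc with h | h <;> rw [h]
    · exact inv_one
    · rw [inv_neg, inv_one]
  refine SI1_hh_conj S _ ((C.cs β α : ℤ) : K) hc0 α (C.refl β α) (fun u => ?_) (fun u => ?_) t ht
  · rw [S.n_conj_all β α 1 u one_ne_zero, _root_.one_zpow, mul_one]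
  · rw [S.n_conj_all β (-α) 1 u one_ne_zero, _root_.one_zpow, mul_one, SI1_cs_neg, hci, C.refl_neg]

theorem hh_add {K : Type*} [Field K] {H : Type*} [Group H] (S : StSys C K H) (α β γ : C.Root)
    (h : γ.1 = α.1 + β.1) (t : K) (ht : t ≠ 0) :
    hh S.x γ t = hh S.x α t * hh S.x β t := by
  have hip := C.ip_add_root α β γ h
  have hr : C.refl β α = γ := by
    apply SLC.Root.ext
    rw [C.refl_val, C.ip_comm, hip, h]
    module
  have e1 := SI1_refl_conj S α β t ht
  rw [hr] at e1
  have e2 : hh S.x α t * nn S.x β t * (hh S.x α t)⁻¹ = nn S.x β (t⁻¹ * t) := by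
    refine SI1_nn_conj S _ t⁻¹ β β (fun u => ?_) (fun u => ?_) t
    · rw [S.h_conj α β t u ht, hip, _root_.zpow_neg, zpow_one]
    · rw [S.h_conj α (-β) t u ht, SLC.Root.neg_val, C.ip_neg_right, hip, neg_neg, zpow_one,
        inv_inv]
  rw [inv_mul_cancel₀ ht] at e2
  have e3 : nn S.x β 1 * hh S.x α t = hh S.x α t * nn S.x β t := by
    rw [← e2, inv_mul_cancel_right]
  rw [← e1, e3, S.nn_inv, mul_assoc]
  rfl

private theorem SI1_hh_one {K : Type*} [Field K] {H : Type*} [Group H] (S : StSys C K H)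
    (α : C.Root) : hh S.x α 1 = 1 := by
  unfold hh
  rw [← S.nn_inv, mul_inv_cancel]

private theorem SI1_hh_neg {K : Type*} [Field K] {H : Type*} [Group H] (S : StSys C K H)
    (α : C.Root) (t : K) (ht : t ≠ 0) : hh S.x (-α) t = hh S.x α t⁻¹ := by
  unfold hh
  rw [S.nn_eq (-α) t ht, S.nn_eq (-α) (-1) (neg_ne_zero.2 one_ne_zero), C.neg_neg_root, inv_neg,
    inv_one]

private theorem SI1_mem {K : Type*} [Field K] {H : Type*} [Group H] (S : StSys C K H)
    (l : List (Fin n)) (t : Fin n → Kˣ) :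
    (l.map fun i => hh S.x (C.simple i) (t i : K)).prod ∈ S.T := by
  apply Subgroup.list_prod_mem
  intro g hg
  obtain ⟨i, _, rfl⟩ := List.mem_map.mp hg
  exact Subgroup.subset_closure ⟨C.simple i, _, (t i).ne_zero, rfl⟩

private theorem SI1_list_mul {K : Type*} [Field K] {H : Type*} [Group H] (S : StSys C K H)
    (l : List (Fin n)) (s t : Fin n → Kˣ) :
    (l.map fun i => hh S.x (C.simple i) ((s * t) i : Kˣ)).prod =
      (l.map fun i => hh S.x (C.simple i) (s i : K)).prod *
        (l.map fun i => hh S.x (C.simple i) (t i : K)).prod := by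
  induction l with
  | nil => simp
  | cons i l ih =>
    rw [List.map_cons, List.prod_cons, List.map_cons, List.prod_cons, List.map_cons,
      List.prod_cons, ih, Pi.mul_apply, Units.val_mul,
      ← S.h_mul (C.simple i) _ _ (s i).ne_zero (t i).ne_zero]
    have h1 := S.T_comm (hh S.x (C.simple i) (t i : K))
      (l.map fun i => hh S.x (C.simple i) (s i : K)).prod
      (Subgroup.subset_closure ⟨C.simple i, _, (t i).ne_zero, rfl⟩) (SI1_mem S l s)
    rw [mul_assoc, ← mul_assoc (hh S.x (C.simple i) (t i : K)), h1]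
    simp only [mul_assoc]

private theorem SI1_list_one {K : Type*} [Field K] {H : Type*} [Group H] (S : StSys C K H)
    (l : List (Fin n)) (i : Fin n) (hi : i ∉ l) (u : Kˣ) :
    (l.map fun j => hh S.x (C.simple j) ((Pi.mulSingle i u : Fin n → Kˣ) j : K)).prod = 1 := by
  induction l with
  | nil => simp
  | cons j l ih =>
    rw [List.mem_cons, not_or] at hi
    rw [List.map_cons, List.prod_cons, ih hi.2, mul_one, Pi.mulSingle_eq_of_ne (Ne.symm hi.1),
      Units.val_one, SI1_hh_one]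

private theorem SI1_list_single {K : Type*} [Field K] {H : Type*} [Group H] (S : StSys C K H)
    (l : List (Fin n)) (hl : l.Nodup) (i : Fin n) (hi : i ∈ l) (u : Kˣ) :
    (l.map fun j => hh S.x (C.simple j) ((Pi.mulSingle i u : Fin n → Kˣ) j : K)).prod =
      hh S.x (C.simple i) (u : K) := by
  induction l with
  | nil => simp at hi
  | cons j l ih =>
    rw [List.nodup_cons] at hl
    rw [List.map_cons, List.prod_cons]
    by_cases hij : i = j
    · subst hij
      rw [SI1_list_one S l i hl.1, mul_one, Pi.mulSingle_eq_same]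
    · have hi' : i ∈ l := by
        rcases List.mem_cons.1 hi with h | h
        · exact absurd h hij
        · exact h
      rw [ih hl.2 hi', Pi.mulSingle_eq_of_ne (Ne.symm hij), Units.val_one, SI1_hh_one, one_mul]

/-- The subgroup of the products. -/
private def SI1_P {K : Type*} [Field K] {H : Type*} [Group H] (S : StSys C K H) : Subgroup H where
  carrier := {x | ∃ t : Fin n → Kˣ,
      x = ((List.finRange n).map fun i => hh S.x (C.simple i) (t i : K)).prod}
  mul_mem' := by
    rintro _ _ ⟨s, rfl⟩ ⟨t, rfl⟩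
    exact ⟨s * t, (SI1_list_mul S _ s t).symm⟩
  one_mem' := by
    refine ⟨1, ?_⟩
    symm
    apply List.prod_eq_one
    intro x hx
    obtain ⟨i, _, rfl⟩ := List.mem_map.1 hx
    rw [Pi.one_apply, Units.val_one, SI1_hh_one]
  inv_mem' := by
    rintro _ ⟨t, rfl⟩
    refine ⟨t⁻¹, ?_⟩
    rw [inv_eq_iff_mul_eq_one, ← SI1_list_mul, mul_inv_cancel]
    apply List.prod_eq_one
    intro x hx
    obtain ⟨i, _, rfl⟩ := List.mem_map.1 hx
    rw [Pi.one_apply, Units.val_one, SI1_hh_one]

private theorem SI1_P_pos {K : Type*} [Field K] {H : Type*} [Group H] (S : StSys C K H)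
    (t : K) (ht0 : t ≠ 0) : ∀ (k : ℕ) (β : C.Root), C.Pos β → ht β.1 ≤ k →
    hh S.x β t ∈ SI1_P S := by
  intro k
  induction k with
  | zero =>
    intro β hβ hk
    unfold SLC.Pos at hβ
    push_cast at hk
    omega
  | succ k ih =>
    intro β hβ hk
    by_cases hs : ∃ i, β = C.simple i
    · obtain ⟨i, rfl⟩ := hs
      exact ⟨Pi.mulSingle i (Units.mk0 t ht0), (SI1_list_single S _ (List.nodup_finRange n) i
        (List.mem_finRange i) (Units.mk0 t ht0)).symm⟩
    · obtain ⟨i, γ, hγ, h⟩ := C.exists_descent β hβ (fun i hi => hs ⟨i, hi⟩)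
      rw [hh_add S (C.simple i) γ β h t ht0]
      have h1 : ht β.1 = 1 + ht γ.1 := by rw [h, ht_add, C.ht_simple]
      refine mul_mem ?_ (ih γ hγ (by push_cast at hk; omega))
      exact ⟨Pi.mulSingle i (Units.mk0 t ht0), (SI1_list_single S _ (List.nodup_finRange n) i
        (List.mem_finRange i) (Units.mk0 t ht0)).symm⟩

theorem T_form {K : Type*} [Field K] {H : Type*} [Group H] (S : StSys C K H) (x : H)
    (hx : x ∈ S.T) : ∃ t : Fin n → Kˣ,
      x = ((List.finRange n).map fun i => hh S.x (C.simple i) (t i : K)).prod := by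
  have hle : S.T ≤ SI1_P S := by
    unfold StSys.T
    rw [Subgroup.closure_le]
    rintro g ⟨β, t, ht0, rfl⟩
    by_cases hβ : C.Pos β
    · exact SI1_P_pos S t ht0 (ht β.1).toNat β hβ (Int.self_le_toNat _)
    · have hβ' := (C.not_pos_iff β).1 hβ
      have h1 := SI1_P_pos S t⁻¹ (inv_ne_zero ht0) (ht (-β).1).toNat (-β) hβ'
        (Int.self_le_toNat _)
      rw [SI1_hh_neg S β _ (inv_ne_zero ht0), inv_inv] at h1
      exact h1
  exact hle hx

private theorem SI1_ker_T {K : Type*} [Field K] {H : Type*} [Group H] (S : StSys C K H)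
    (hgen : S.gen = ⊤) (p : H →* GL C.Idx K) (hp : ∀ β t, p (S.x β t) = C.xg K β t) (y : H)
    (hy : p y = 1) : y ∈ S.T := by
  have hy' : y ∈ S.gen := by rw [hgen]; exact Subgroup.mem_top y
  obtain ⟨u, hu, ν, hν, v, hv, rfl⟩ := S.bruhat y hy'
  have hpu := C.S9_U S p hp 1 u hu
  have hpv := C.S9_U S p hp 1 v hv
  have hpν := C.S9_N S p hp ν hν
  rw [map_mul, map_mul] at hy
  have e1 : p ν = (p u)⁻¹ * (p v)⁻¹ := by
    rw [eq_inv_mul_iff_mul_eq, eq_inv_iff_mul_eq_one]
    exact hy
  have hF : C.Fil 0 ((p ν : GL C.Idx K) : Matrix C.Idx C.Idx K) := by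
    apply C.Fil_U_zero
    rw [e1]
    exact mul_mem (inv_mem hpu) (inv_mem hpv)
  obtain ⟨w, hw, hacts, hwT⟩ := S.N_acts ν hν
  have hacts' : (C.adS K).Acts (p ν) w := by
    obtain ⟨c, hc, hc2⟩ := hacts
    refine ⟨c, hc, fun β t => ?_⟩
    have h1 := congrArg p (hc2 β t)
    rw [map_mul, map_mul, map_inv, hp, hp] at h1
    exact h1
  obtain ⟨-, -, -, -, hne⟩ := C.N_mono (p ν) w hacts' hpν
  have hw1 : w = 1 := by
    apply C.eq_one_of_pos w hw
    intro i
    by_contra hneg
    apply hne (C.simple i)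
    apply hF
    unfold SLC.Pos at hneg
    have h1 := C.ht_simple i
    show ht (w (C.simple i)).1 < ht (C.simple i).1 + 0
    omega
  have hνT := hwT hw1
  set u' := ν⁻¹ * u * ν * v with hu'def
  have hu' : u' ∈ S.U 1 := by
    apply mul_mem _ hv
    have h1 := S.T_conj_U 1 ν⁻¹ u (inv_mem hνT) hu
    rwa [inv_inv] at h1
  have hy2 : u * ν * v = ν * u' := by
    rw [hu'def]
    group
  have hpu' := C.S9_U S p hp 1 u' hu'
  have e2 : p ν * p u' = 1 := by
    rw [← map_mul, ← hy2, map_mul, map_mul]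
    exact hy
  have hν1 : p ν = 1 := by
    apply C.S9_T_one _ (C.S9_T S p hp ν hνT)
    rw [eq_inv_of_mul_eq_one_left e2]
    exact inv_mem hpu'
  have hu1 : p u' = 1 := by
    rw [hν1, one_mul] at e2
    exact e2
  obtain ⟨t, ht0, htu⟩ := S.exists_lp 1 le_rfl u' hu'
  have hlp : (C.adS K).lp C.posList t = (C.adS K).lp C.posList (fun _ => 0) := by
    rw [(C.adS K).lp_zero C.posList (fun _ => 0) (fun _ _ => rfl), ← C.S9_lp S p hp, ← htu, hu1]
  have hu'1 : u' = 1 := by
    rw [htu]
    apply S.lp_zero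
    intro β hβ
    exact C.lp_unique t (fun _ => 0) hlp β ((C.mem_posList β).1 hβ)
  rw [hy2, hu'1, mul_one]
  exact hνT

private theorem SI1_list_conj {K : Type*} [Field K] {H : Type*} [Group H] (S : StSys C K H)
    (t : Fin n → Kˣ) (β : C.Root) (l : List (Fin n)) :
    ∀ u, (l.map fun i => hh S.x (C.simple i) (t i : K)).prod * S.x β u *
      ((l.map fun i => hh S.x (C.simple i) (t i : K)).prod)⁻¹ =
        S.x β (((l.map fun i => (t i) ^ (C.ip (C.simple i).1 β.1)).prod : Kˣ) * u) := by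
  induction l with
  | nil => intro u; simp
  | cons i l ih =>
    intro u
    simp only [List.map_cons, List.prod_cons]
    set P := (l.map fun i => hh S.x (C.simple i) (t i : K)).prod with hP
    have h1 : hh S.x (C.simple i) (t i : K) * P * S.x β u * (hh S.x (C.simple i) (t i : K) * P)⁻¹ =
        hh S.x (C.simple i) (t i : K) * (P * S.x β u * P⁻¹) *
          (hh S.x (C.simple i) (t i : K))⁻¹ := by
      group
    rw [h1, ih, S.h_conj _ β _ _ (t i).ne_zero]
    congr 1
    push_cast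
    ring

theorem pa_ker_form {K : Type u} [Field K] (x : GU C K) (hx : pa C K x = 1) :
    ∃ t : Fin n → Kˣ,
      x = ((List.finRange n).map fun i => hh (GU.x C K) (C.simple i) (t i : K)).prod ∧
      ∀ j, ∏ i, (t i) ^ C.A i j = 1 := by
  have hp : ∀ β t, pa C K ((GU.sys C K).x β t) = C.xg K β t := fun β t => GU.lift_x (C.adS K) β t
  have hT := SI1_ker_T (GU.sys C K) (GU.gen_eq C K) (pa C K) hp x hx
  obtain ⟨t, ht⟩ := T_form (GU.sys C K) x hT
  refine ⟨t, ht, fun j => ?_⟩
  have h1 := SI1_list_conj (GU.sys C K) t (C.simple j) (List.finRange n) 1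
  rw [← ht] at h1
  have h2 := congrArg (pa C K) h1
  rw [map_mul, map_mul, map_inv, hp, hp, hx, one_mul, inv_one, mul_one, mul_one] at h2
  have h3 := (C.xg_inj (C.simple j) (C.simple j) 1 _ one_ne_zero h2).2
  have h4 : ((List.finRange n).map fun i => (t i) ^ (C.ip (C.simple i).1 (C.simple j).1)).prod =
      (1 : Kˣ) := Units.ext (by rw [← h3, Units.val_one])
  rw [← h4, Fin.prod_univ_def]
  congr 1
  apply List.map_congr_left
  intro i _
  rw [SLC.simple_val, SLC.simple_val, C.ip_single]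

end Pool.Agent.H75.UL
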